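import Mathlib

set_option autoImplicit false

namespace Pool.Agent.H162Z.AutR

open Set

/-- The order automorphisms of the real line. -/
def A : Type := ℝ ≃o ℝ

noncomputable instance : Group A := inferInstanceAs (Group (ℝ ≃o ℝ))

/-- The underlying function. -/
def ap (f : A) : ℝ → ℝ := fun x => (show ℝ ≃o ℝ from f) x

theorem ap_sm (f : A) : StrictMono (ap f) := (show ℝ ≃o ℝ from f).strictMono

theorem ap_mono (f : A) : Monotone (ap f) := (ap_sm f).monotone

@[simp] theorem ap_mul (f g : A) (x : ℝ) : ap (f * g) x = ap f (ap g x) := rfl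

@[simp] theorem ap_one (x : ℝ) : ap 1 x = x := rfl

@[simp] theorem ap_inv_ap (f : A) (x : ℝ) : ap f⁻¹ (ap f x) = x := by
  rw [← ap_mul, inv_mul_cancel, ap_one]

@[simp] theorem ap_ap_inv (f : A) (x : ℝ) : ap f (ap f⁻¹ x) = x := by
  rw [← ap_mul, mul_inv_cancel, ap_one]

theorem ap_inj : Function.Injective ap := fun f g h => by
  apply RelIso.ext
  intro x
  exact congrFun h x

theorem ext' {f g : A} (h : ∀ x, ap f x = ap g x) : f = g := ap_inj (funext h)

/-- Build an automorphism from a strictly monotone surjection. -/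
noncomputable def mk (f : ℝ → ℝ) (h1 : StrictMono f) (h2 : Function.Surjective f) : A :=
  StrictMono.orderIsoOfSurjective f h1 h2

@[simp] theorem ap_mk (f : ℝ → ℝ) (h1 : StrictMono f) (h2 : Function.Surjective f) (x : ℝ) :
    ap (mk f h1 h2) x = f x := rfl

noncomputable instance : Max A := ⟨fun f g => mk (fun x => max (ap f x) (ap g x))
  (fun _ _ h => max_lt_max (ap_sm f h) (ap_sm g h)) (fun y => by
    refine ⟨min (ap f⁻¹ y) (ap g⁻¹ y), ?_⟩
    rcases le_total (ap f⁻¹ y) (ap g⁻¹ y) with h | h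
    · have := ap_mono g h
      rw [ap_ap_inv] at this
      simp only [min_eq_left h, ap_ap_inv, max_eq_left this]
    · have := ap_mono f h
      rw [ap_ap_inv] at this
      simp only [min_eq_right h, ap_ap_inv, max_eq_right this])⟩

noncomputable instance : Min A := ⟨fun f g => mk (fun x => min (ap f x) (ap g x))
  (fun _ _ h => min_lt_min (ap_sm f h) (ap_sm g h)) (fun y => by
    refine ⟨max (ap f⁻¹ y) (ap g⁻¹ y), ?_⟩
    rcases le_total (ap f⁻¹ y) (ap g⁻¹ y) with h | h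
    · have := ap_mono f h
      rw [ap_ap_inv] at this
      simp only [max_eq_right h, ap_ap_inv, min_eq_right this]
    · have := ap_mono g h
      rw [ap_ap_inv] at this
      simp only [max_eq_left h, ap_ap_inv, min_eq_left this])⟩

noncomputable instance : Lattice A where
  le f g := ∀ x, ap f x ≤ ap g x
  le_refl _ _ := le_rfl
  le_trans _ _ _ h1 h2 x := (h1 x).trans (h2 x)
  le_antisymm _ _ h1 h2 := ext' fun x => le_antisymm (h1 x) (h2 x)
  sup f g := max f g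
  inf f g := min f g
  le_sup_left _ _ _ := le_max_left _ _
  le_sup_right _ _ _ := le_max_right _ _
  sup_le _ _ _ h1 h2 x := max_le (h1 x) (h2 x)
  inf_le_left _ _ _ := min_le_left _ _
  inf_le_right _ _ _ := min_le_right _ _
  le_inf _ _ _ h1 h2 x := le_min (h1 x) (h2 x)

theorem le_def {f g : A} : f ≤ g ↔ ∀ x, ap f x ≤ ap g x := Iff.rfl

@[simp] theorem ap_sup (f g : A) (x : ℝ) : ap (f ⊔ g) x = max (ap f x) (ap g x) := rfl

@[simp] theorem ap_inf (f g : A) (x : ℝ) : ap (f ⊓ g) x = min (ap f x) (ap g x) := rfl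

/-- The affine map of slope `s` sending `c` to `d`. -/
noncomputable def aff (s : ℝ) (hs : 0 < s) (c d : ℝ) : A := mk (fun x => d + s * (x - c))
  (fun x y h => by simp only; nlinarith) (fun y => ⟨c + (y - d) / s, by field_simp; ring⟩)

@[simp] theorem ap_aff (s : ℝ) (hs : 0 < s) (c d x : ℝ) : ap (aff s hs c d) x = d + s * (x - c) := rfl

theorem exists_two {x1 x2 y1 y2 : ℝ} (hx : x1 < x2) (hy : y1 < y2) :
    ∃ f : A, ap f x1 = y1 ∧ ap f x2 = y2 := by
  have h1 : 0 < x2 - x1 := by linarith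
  refine ⟨aff ((y2 - y1) / (x2 - x1)) (div_pos (by linarith) h1) x1 y1, by simp, ?_⟩
  rw [ap_aff]; field_simp; ring

theorem exists_one (x y : ℝ) : ∃ f : A, ap f x = y := ⟨aff 1 one_pos x y, by simp⟩

/-- Existing suprema are computed pointwise. -/
theorem lub_pointwise {S : Set A} {f : A} (h : IsLUB S f) {x y : ℝ} (hy : y < ap f x) :
    ∃ s ∈ S, y < ap s x := by
  by_contra hc
  push Not at hc
  set M := ap f x with hM
  set m := (y + M) / 2 with hm
  let k : A := 1 ⊓ (aff (1/2) (by norm_num) m m ⊔ aff 2 (by norm_num) M M)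
  have hub : k * f ∈ upperBounds S := by
    intro s hs t
    have h1 : ap s t ≤ ap f t := h.1 hs t
    simp only [k, ap_mul, ap_inf, ap_sup, ap_aff, ap_one]
    refine le_min h1 ?_
    rcases le_total t x with htx | htx
    · have h2 := ap_mono s htx
      have h3 := hc s hs
      refine le_max_of_le_left ?_
      rcases le_total (ap f t) m with h4 | h4 <;> linarith
    · have h2 := ap_mono f htx
      refine le_max_of_le_right ?_
      linarith
  have h2 := h.2 hub (ap f⁻¹ ((m + M) / 2))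
  simp only [k, ap_mul, ap_inf, ap_sup, ap_aff, ap_one, ap_ap_inv, le_min_iff, le_max_iff] at h2
  rcases h2.2 with h3 | h3 <;> linarith

/-- The filter of a point. -/
def F (p : ℝ × ℝ) : Set A := {f | -p.2 < ap f p.1}

theorem mem_F {p : ℝ × ℝ} {f : A} : f ∈ F p ↔ -p.2 < ap f p.1 := Iff.rfl

/-- Completely prime filters. -/
structure CP (S : Set A) : Prop where
  up : ∀ f ∈ S, ∀ g, f ≤ g → g ∈ S
  inf : ∀ f ∈ S, ∀ g ∈ S, f ⊓ g ∈ S
  ne : ∃ f, f ∈ S
  prop : ∃ f, f ∉ S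
  lub : ∀ (T : Set A) (f : A), IsLUB T f → f ∈ S → ∃ t ∈ T, t ∈ S

theorem CP_F (p : ℝ × ℝ) : CP (F p) where
  up := fun _ hf _ h => lt_of_lt_of_le hf (h _)
  inf := fun _ hf _ hg => mem_F.2 (lt_min hf hg)
  ne := by
    obtain ⟨f, hf⟩ := exists_one p.1 (-p.2 + 1)
    exact ⟨f, by rw [mem_F]; linarith⟩
  prop := by
    obtain ⟨f, hf⟩ := exists_one p.1 (-p.2)
    exact ⟨f, by rw [mem_F]; linarith⟩
  lub := fun _ _ h hf => lub_pointwise h hf

theorem CP.preimage {S : Set A} (h : CP S) (Φ : A ≃o A) : CP (Φ ⁻¹' S) where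
  up := fun f hf g hfg => h.up _ hf _ (Φ.monotone hfg)
  inf := fun f hf g hg => by
    show Φ (f ⊓ g) ∈ S
    rw [Φ.map_inf]; exact h.inf _ hf _ hg
  ne := by
    obtain ⟨f, hf⟩ := h.ne
    exact ⟨Φ.symm f, by simpa using hf⟩
  prop := by
    obtain ⟨f, hf⟩ := h.prop
    exact ⟨Φ.symm f, by simpa using hf⟩
  lub := fun T f hT hf => by
    obtain ⟨_, ⟨t, ht, rfl⟩, h2⟩ := h.lub (Φ '' T) (Φ f) (Φ.isLUB_image'.2 hT) hf
    exact ⟨t, ht, h2⟩

theorem F_subset {p q : ℝ × ℝ} : F p ⊆ F q ↔ p ≤ q := by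
  constructor
  · intro h
    constructor
    · by_contra hc
      push Not at hc
      obtain ⟨f, h1, h2⟩ := exists_two hc (y1 := -q.2) (y2 := max (-q.2) (-p.2) + 1)
        (by linarith [le_max_left (-q.2) (-p.2)])
      have h3 : f ∈ F q := h (by rw [mem_F]; linarith [le_max_right (-q.2) (-p.2)])
      have h4 : -q.2 < ap f q.1 := h3
      linarith
    · by_contra hc
      push Not at hc
      obtain ⟨f, h1, h2⟩ := exists_two (x1 := p.1) (x2 := max p.1 q.1 + 1)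
        (y1 := (-p.2 + -q.2) / 2) (y2 := -q.2) (by linarith [le_max_left p.1 q.1]) (by linarith)
      have h3 : f ∈ F q := h (by rw [mem_F]; linarith)
      have h4 : -q.2 < ap f q.1 := h3
      have h5 := ap_mono f (show q.1 ≤ max p.1 q.1 + 1 by linarith [le_max_right p.1 q.1])
      linarith
  · intro h f hf
    have h1 : -p.2 < ap f p.1 := hf
    have h2 := ap_mono f h.1
    have h3 := h.2
    rw [mem_F]
    linarith

theorem CP.eq_F {S : Set A} (h : CP S) : ∃ p, S = F p := by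
  let R : Set (ℝ × ℝ) := {p | F p ⊆ S}
  have hR : ∀ p ∈ R, ∀ g, g ∉ S → ap g p.1 ≤ -p.2 := fun p hp g hg => by
    by_contra hc
    exact hg (hp (not_le.1 hc))
  have h1 : ∀ f ∈ S, ∃ p ∈ R, f ∈ F p := by
    intro f hf
    by_contra hc
    push Not at hc
    have hl : IsLUB {t | ∃ g, g ∉ S ∧ t = g ⊓ f} f := by
      constructor
      · rintro _ ⟨g, -, rfl⟩; exact inf_le_right
      · intro u hu x
        by_contra hx
        push Not at hx
        have h2 : ((x, -ap u x) : ℝ × ℝ) ∉ R := fun h3 => hc _ h3 (by rw [mem_F]; simpa using hx)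
        obtain ⟨g, hg1, hg2⟩ := not_subset.1 h2
        have h4 : ap u x < ap g x := by simpa [F] using hg1
        have h5 := hu ⟨g, hg2, rfl⟩ x
        rw [ap_inf] at h5
        exact absurd (lt_min h4 hx) (not_lt.2 h5)
    obtain ⟨_, ⟨g, hg, rfl⟩, h2⟩ := h.lub _ _ hl hf
    exact hg (h.up _ h2 _ inf_le_left)
  have h2' : ∀ p ∈ R, ∀ q ∈ R, p.1 < q.1 → ((q.1, p.2) : ℝ × ℝ) ∈ R := by
    intro p hp q hq hpq g hg
    have hg' : -p.2 < ap g q.1 := hg
    have hT := ap_sm g hpq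
    set T1 := ap g p.1 with hT1
    set T2 := ap g q.1 with hT2
    obtain ⟨T, hT3, hT4⟩ := exists_between (max_lt hg' hT)
    have hT5 := (le_max_left _ _).trans_lt hT3
    have hT6 := (le_max_right _ _).trans_lt hT3
    have hε : 0 < min 1 ((T + p.2) / (2 * (T - T1))) :=
      lt_min one_pos (div_pos (by linarith) (by linarith))
    have hN : 0 < max 1 ((-q.2 - T + 1) / (T2 - T)) := lt_max_of_lt_left one_pos
    let k1 : A := 1 ⊔ aff _ hε T T
    let k2 : A := 1 ⊔ aff _ hN T T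
    have e1 : k1 * g ∈ S := hp (by
      show -p.2 < _
      simp only [k1, ap_mul, ap_sup, ap_aff, ap_one, ← hT1]
      refine lt_max_of_lt_right ?_
      have h5 : min 1 ((T + p.2) / (2 * (T - T1))) * (T - T1) ≤
          (T + p.2) / (2 * (T - T1)) * (T - T1) :=
        mul_le_mul_of_nonneg_right (min_le_right _ _) (by linarith)
      have h6 : (T + p.2) / (2 * (T - T1)) * (T - T1) = (T + p.2) / 2 := by
        have : T - T1 ≠ 0 := by linarith
        field_simp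
      linarith)
    have e2 : k2 * g ∈ S := hq (by
      show -q.2 < _
      simp only [k2, ap_mul, ap_sup, ap_aff, ap_one, ← hT2]
      refine lt_max_of_lt_right ?_
      have h5 : (-q.2 - T + 1) / (T2 - T) * (T2 - T) ≤
          max 1 ((-q.2 - T + 1) / (T2 - T)) * (T2 - T) :=
        mul_le_mul_of_nonneg_right (le_max_right _ _) (by linarith)
      have h6 : (-q.2 - T + 1) / (T2 - T) * (T2 - T) = -q.2 - T + 1 := by
        have : T2 - T ≠ 0 := by linarith
        field_simp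
      linarith)
    refine h.up _ (h.inf _ e1 _ e2) _ (fun t => ?_)
    simp only [k1, k2, ap_mul, ap_sup, ap_inf, ap_aff, ap_one]
    rcases le_total (ap g t) T with h5 | h5
    · refine min_le_of_right_le (max_le le_rfl ?_)
      nlinarith [le_max_left 1 ((-q.2 - T + 1) / (T2 - T))]
    · refine min_le_of_left_le (max_le le_rfl ?_)
      nlinarith [min_le_left 1 ((T + p.2) / (2 * (T - T1)))]
  have h2 : ∀ p ∈ R, ∀ q ∈ R, ((q.1, p.2) : ℝ × ℝ) ∈ R := by
    intro p hp q hq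
    rcases lt_or_ge p.1 q.1 with h3 | h3
    · exact h2' p hp q hq h3
    · exact (F_subset.2 (show ((q.1, p.2) : ℝ × ℝ) ≤ p from ⟨h3, le_rfl⟩)).trans hp
  obtain ⟨f0, hf0⟩ := h.ne
  obtain ⟨p0, hp0, -⟩ := h1 f0 hf0
  obtain ⟨g0, hg0⟩ := h.prop
  have b1 : BddAbove (Prod.fst '' R) := by
    refine ⟨ap g0⁻¹ (-p0.2), ?_⟩
    rintro _ ⟨q, hq, rfl⟩
    have := ap_mono g0⁻¹ (hR _ (h2 p0 hp0 q hq) g0 hg0)
    simpa using this
  have b2 : BddAbove (Prod.snd '' R) := by
    refine ⟨-ap g0 p0.1, ?_⟩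
    rintro _ ⟨q, hq, rfl⟩
    have := hR _ (h2 q hq p0 hp0) g0 hg0
    simp only at this
    linarith
  refine ⟨(sSup (Prod.fst '' R), sSup (Prod.snd '' R)), Subset.antisymm ?_ ?_⟩
  · intro f hf
    obtain ⟨p, hp, hfp⟩ := h1 f hf
    exact F_subset.2 ⟨le_csSup b1 ⟨p, hp, rfl⟩, le_csSup b2 ⟨p, hp, rfl⟩⟩ hfp
  · intro g hg
    have hg' : -sSup (Prod.snd '' R) < ap g (sSup (Prod.fst '' R)) := hg
    obtain ⟨m, hm1, hm2⟩ := exists_between hg'
    have h3 : ap g⁻¹ m < sSup (Prod.fst '' R) := by simpa using ap_sm g⁻¹ hm2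
    obtain ⟨_, ⟨q, hq, rfl⟩, h4⟩ := exists_lt_of_lt_csSup (Set.Nonempty.image _ ⟨p0, hp0⟩) h3
    obtain ⟨_, ⟨p, hp, rfl⟩, h5⟩ := exists_lt_of_lt_csSup (Set.Nonempty.image _ ⟨p0, hp0⟩)
      (show -m < sSup (Prod.snd '' R) by linarith)
    refine h2 p hp q hq ?_
    show -p.2 < ap g q.1
    have := ap_sm g h4
    rw [ap_ap_inv] at this
    linarith

theorem exists_theta (Φ : A ≃o A) :
    ∃ θ : ℝ × ℝ ≃o ℝ × ℝ, ∀ p f, Φ f ∈ F (θ p) ↔ f ∈ F p := by
  have hinj : ∀ p q, F p = F q → p = q := fun p q h =>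
    le_antisymm (F_subset.1 h.le) (F_subset.1 h.ge)
  choose θ hθ using fun p => ((CP_F p).preimage Φ.symm).eq_F
  choose θ' hθ' using fun p => ((CP_F p).preimage Φ).eq_F
  have e1 : ∀ p f, Φ f ∈ F (θ p) ↔ f ∈ F p := fun p f => by rw [← hθ]; simp
  have e2 : ∀ p f, f ∈ F (θ' p) ↔ Φ f ∈ F p := fun p f => by rw [← hθ']; simp
  refine ⟨⟨⟨θ, θ', fun p => hinj _ _ ?_, fun p => hinj _ _ ?_⟩, ?_⟩, e1⟩
  · ext f; rw [e2, e1]
  · ext f
    obtain ⟨g, rfl⟩ := Φ.surjective f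
    rw [e1, e2]
  · intro p q
    simp only [Equiv.coe_fn_mk]
    rw [← F_subset, ← F_subset]
    constructor
    · intro h f hf
      exact (e1 q f).1 (h ((e1 p f).2 hf))
    · intro h f hf
      obtain ⟨g, rfl⟩ := Φ.surjective f
      exact (e1 q g).2 (h ((e1 p g).1 hf))

theorem theta_chain (θ : ℝ × ℝ ≃o ℝ × ℝ) {p q : ℝ × ℝ} (h : p ≤ q) (h2 : p.1 = q.1 ∨ p.2 = q.2) :
    (θ p).1 = (θ q).1 ∨ (θ p).2 = (θ q).2 := by
  have h3 := θ.monotone h
  have hc : ∀ r s : ℝ × ℝ, p ≤ r → r ≤ q → p ≤ s → s ≤ q → r ≤ s ∨ s ≤ r := by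
    intro r s a1 a2 a3 a4
    rcases h2 with h2 | h2
    · rcases le_total r.2 s.2 with h4 | h4
      · exact Or.inl ⟨by linarith [a2.1, a3.1], h4⟩
      · exact Or.inr ⟨by linarith [a1.1, a4.1], h4⟩
    · rcases le_total r.1 s.1 with h4 | h4
      · exact Or.inl ⟨h4, by linarith [a2.2, a3.2]⟩
      · exact Or.inr ⟨h4, by linarith [a1.2, a4.2]⟩
  have h5 := hc (θ.symm ((θ p).1, (θ q).2)) (θ.symm ((θ q).1, (θ p).2))
    (θ.le_symm_apply.2 ⟨le_rfl, h3.2⟩) (θ.symm_apply_le.2 ⟨h3.1, le_rfl⟩)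
    (θ.le_symm_apply.2 ⟨h3.1, le_rfl⟩) (θ.symm_apply_le.2 ⟨le_rfl, h3.2⟩)
  simp only [OrderIso.le_iff_le] at h5
  rcases h5 with h5 | h5
  · exact Or.inr (le_antisymm h3.2 h5.2)
  · exact Or.inl (le_antisymm h3.1 h5.1)

theorem theta_fst (θ : ℝ × ℝ ≃o ℝ × ℝ) (hθ : ∀ p, θ p ≤ p) (x y y' : ℝ) :
    (θ (x, y)).1 = (θ (x, y')).1 := by
  wlog h : y ≤ y' generalizing y y'
  · exact (this y' y (le_of_not_ge h)).symm
  by_contra hc
  set z := min y ((θ (x, y')).2 - 1) with hz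
  have h1 : (θ (x, z)).1 ≤ (θ (x, y)).1 := (θ.monotone (show (x, z) ≤ (x, y) from
    ⟨le_rfl, min_le_left _ _⟩)).1
  have h2 : (θ (x, y)).1 ≤ (θ (x, y')).1 := (θ.monotone (show (x, y) ≤ (x, y') from
    ⟨le_rfl, h⟩)).1
  rcases theta_chain θ (show (x, z) ≤ (x, y') from ⟨le_rfl, (min_le_left _ _).trans h⟩)
    (Or.inl rfl) with h3 | h3
  · exact hc (le_antisymm h2 (h3 ▸ h1))
  · have h4 : (θ (x, z)).2 ≤ z := (hθ _).2
    have h5 : z ≤ (θ (x, y')).2 - 1 := min_le_right _ _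
    linarith

theorem theta_snd (θ : ℝ × ℝ ≃o ℝ × ℝ) (hθ : ∀ p, θ p ≤ p) (x x' y : ℝ) :
    (θ (x, y)).2 = (θ (x', y)).2 := by
  wlog h : x ≤ x' generalizing x x'
  · exact (this x' x (le_of_not_ge h)).symm
  by_contra hc
  set z := min x ((θ (x', y)).1 - 1) with hz
  have h1 : (θ (z, y)).2 ≤ (θ (x, y)).2 := (θ.monotone (show (z, y) ≤ (x, y) from
    ⟨min_le_left _ _, le_rfl⟩)).2
  have h2 : (θ (x, y)).2 ≤ (θ (x', y)).2 := (θ.monotone (show (x, y) ≤ (x', y) from
    ⟨h, le_rfl⟩)).2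
  rcases theta_chain θ (show (z, y) ≤ (x', y) from ⟨(min_le_left _ _).trans h, le_rfl⟩)
    (Or.inr rfl) with h3 | h3
  · have h4 : (θ (z, y)).1 ≤ z := (hθ _).1
    have h5 : z ≤ (θ (x', y)).1 - 1 := min_le_right _ _
    linarith
  · exact hc (le_antisymm h2 (h3 ▸ h1))

/-- An increasing lattice automorphism of `A` is a two-sided multiplication. -/
theorem two_sided (Φ : A ≃o A) (hΦ : ∀ f, f ≤ Φ f) :
    ∃ α β : A, 1 ≤ α ∧ 1 ≤ β ∧ ∀ f, Φ f = α * f * β := by
  obtain ⟨θ, hθ⟩ := exists_theta Φ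
  have hle : ∀ p, θ p ≤ p := fun p => F_subset.1 (fun h hh => by
    obtain ⟨f, rfl⟩ := Φ.surjective h
    exact (CP_F p).up _ ((hθ p f).1 hh) _ (hΦ f))
  have e : ∀ x y, θ (x, y) = ((θ (x, 0)).1, (θ (0, y)).2) := fun x y =>
    Prod.ext (theta_fst θ hle x y 0) (theta_snd θ hle x 0 y)
  have s1 : StrictMono (fun x => (θ (x, 0)).1) := by
    intro x x' h
    have h1 := θ.strictMono (show ((x, 0) : ℝ × ℝ) < (x', 0) from Prod.mk_lt_mk.2
      (Or.inl ⟨h, le_rfl⟩))
    rw [e x 0, e x' 0, Prod.mk_lt_mk] at h1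
    rcases h1 with h1 | h1
    · exact h1.1
    · exact absurd h1.2 (lt_irrefl _)
  have s2 : StrictMono (fun y => -(θ (0, -y)).2) := by
    intro y y' h
    have h1 := θ.strictMono (show ((0, -y') : ℝ × ℝ) < (0, -y) from Prod.mk_lt_mk.2
      (Or.inr ⟨le_rfl, by linarith⟩))
    rw [e 0 (-y), e 0 (-y'), Prod.mk_lt_mk] at h1
    rcases h1 with h1 | h1
    · exact absurd h1.1 (lt_irrefl _)
    · simp only; linarith [h1.2]
  have t1 : Function.Surjective (fun x => (θ (x, 0)).1) := fun x => by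
    obtain ⟨⟨a, b⟩, h⟩ := θ.surjective (x, 0)
    rw [e a b] at h
    exact ⟨a, congrArg Prod.fst h⟩
  have t2 : Function.Surjective (fun y => -(θ (0, -y)).2) := fun y => by
    obtain ⟨⟨a, b⟩, h⟩ := θ.surjective (0, -y)
    rw [e a b] at h
    have h1 : (θ (0, b)).2 = -y := congrArg Prod.snd h
    exact ⟨-b, by simp [h1]⟩
  let a : A := mk _ s1 t1
  let b : A := mk _ s2 t2
  have key : ∀ f x y, ap b y < ap (Φ f) (ap a x) ↔ y < ap f x := by
    intro f x y
    have := hθ (x, -y) f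
    rw [e x (-y)] at this
    simpa [F, a, b] using this
  refine ⟨b, a⁻¹, fun y => ?_, fun x => ?_, fun f => ext' fun x => ?_⟩
  · have := (hle (0, -y)).2
    simp only [ap_one, b, ap_mk]
    simp only at this
    linarith
  · have h1 : ap a (ap a⁻¹ x) ≤ ap a⁻¹ x := (hle (ap a⁻¹ x, 0)).1
    simpa using h1
  · simp only [ap_mul]
    have h1 := key f (ap a⁻¹ x)
    rw [ap_ap_inv] at h1
    apply le_antisymm
    · by_contra hc
      exact lt_irrefl _ ((h1 _).1 (not_le.1 hc))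
    · by_contra hc
      push Not at hc
      have h2 := ap_sm b⁻¹ hc
      rw [ap_inv_ap] at h2
      have h3 := (h1 _).2 h2
      rw [ap_ap_inv] at h3
      exact lt_irrefl _ h3

end Pool.Agent.H162Z.AutR
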