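import Pool.Agent.H162Z.AutR

set_option autoImplicit false

namespace Pool.Agent.H162Z.AutR

theorem mul_mono_left {a b : A} (c : A) (h : a ≤ b) : c * a ≤ c * b := fun x => ap_mono c (h x)

theorem mul_mono_right {a b : A} (c : A) (h : a ≤ b) : a * c ≤ b * c := fun x => h (ap c x)

theorem sup_mul' (a b c : A) : (a ⊔ b) * c = a * c ⊔ b * c := ext' fun _ => rfl

theorem inf_mul' (a b c : A) : (a ⊓ b) * c = a * c ⊓ b * c := ext' fun _ => rfl

theorem mul_sup' (a b c : A) : c * (a ⊔ b) = c * a ⊔ c * b := ext' fun _ => (ap_mono c).map_max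

theorem exists_lt_of_ne {a : A} (h : 1 ≤ a) (h2 : a ≠ 1) : ∃ x, x < ap a x := by
  by_contra hc
  push Not at hc
  exact h2 (le_antisymm hc h)

/-- A bump with support `(c, d)`. -/
noncomputable def bump (c d : ℝ) : A :=
  1 ⊔ (aff 2 (by norm_num) c c ⊓ aff (1/2) (by norm_num) d d)

theorem one_le_bump (c d : ℝ) : 1 ≤ bump c d := le_sup_left

theorem bump_ne {c d : ℝ} (h : c < d) : bump c d ≠ 1 := by
  intro h1
  have h2 := congrArg (fun f => ap f ((c + d) / 2)) h1
  simp only [bump, ap_sup, ap_inf, ap_aff, ap_one] at h2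
  have h3 : (c + d) / 2 < min (c + 2 * ((c + d) / 2 - c)) (d + 1 / 2 * ((c + d) / 2 - d)) :=
    lt_min (by linarith) (by linarith)
  have h4 := le_max_right ((c + d) / 2)
    (min (c + 2 * ((c + d) / 2 - c)) (d + 1 / 2 * ((c + d) / 2 - d)))
  linarith

theorem bump_fix {c d x : ℝ} (h : x ≤ c ∨ d ≤ x) : ap (bump c d) x = x := by
  simp only [bump, ap_sup, ap_inf, ap_aff, ap_one]
  apply max_eq_left
  rcases h with h | h
  · exact min_le_of_left_le (by linarith)
  · exact min_le_of_right_le (by linarith)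

theorem inf_bump {k : A} (hk : 1 ≤ k) {c d : ℝ} (h : ∀ x, c ≤ x → x ≤ d → ap k x = x) :
    k ⊓ bump c d = 1 := by
  refine le_antisymm (fun x => ?_) (le_inf hk (one_le_bump c d))
  rw [ap_inf, ap_one]
  by_cases h1 : c ≤ x ∧ x ≤ d
  · exact min_le_of_left_le (h x h1.1 h1.2).le
  · refine min_le_of_right_le (bump_fix ?_).le
    by_contra hc
    push Not at hc
    exact h1 ⟨hc.1.le, hc.2.le⟩

theorem decomp {k : A} (hk : 1 ≤ k) : ∃ k1 k2 : A, 1 ≤ k1 ∧ 1 ≤ k2 ∧ k = k1 ⊔ k2 ∧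
    (∃ c d, c < d ∧ ∀ x, c ≤ x → x ≤ d → ap k1 x = x) ∧
    (∃ c d, c < d ∧ ∀ x, c ≤ x → x ≤ d → ap k2 x = x) := by
  have h1 : ap k⁻¹ (-1) ≤ -1 := by simpa using (hk (ap k⁻¹ (-1)))
  have hN : 0 < 1 - ap k⁻¹ (-1) := by linarith
  set K := ap k 1 with hK
  have h2 : K + 2 ≤ ap k (K + 2) := hk _
  have hε : 0 < 1 / (ap k (K + 2) - K) := div_pos one_pos (by linarith)
  have hε1 : 1 / (ap k (K + 2) - K) ≤ 1 := by
    rw [div_le_one (by linarith)]; linarith
  refine ⟨1 ⊔ k * (1 ⊓ aff _ hN 1 1), 1 ⊔ (1 ⊓ aff _ hε K K) * k, le_sup_left, le_sup_left, ?_,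
    ⟨-1, 0, by norm_num, ?_⟩, ⟨K + 1, K + 2, by linarith, ?_⟩⟩
  · apply le_antisymm
    · intro x
      simp only [ap_sup, ap_inf, ap_mul, ap_aff, ap_one]
      rcases le_total x 1 with h | h
      · refine le_max_of_le_right (le_max_of_le_right (le_min le_rfl ?_))
        have := ap_mono k h
        nlinarith
      · refine le_max_of_le_left (le_max_of_le_right (ap_mono k (le_min le_rfl ?_)))
        nlinarith
    · refine sup_le (sup_le hk ?_) (sup_le hk ?_)
      · simpa using mul_mono_left k (inf_le_left : (1 : A) ⊓ aff _ hN 1 1 ≤ 1)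
      · simpa using mul_mono_right k (inf_le_left : (1 : A) ⊓ aff _ hε K K ≤ 1)
  · intro x hx1 hx2
    simp only [ap_sup, ap_inf, ap_mul, ap_aff, ap_one]
    apply max_eq_left
    have h3 : min x (1 + (1 - ap k⁻¹ (-1)) * (x - 1)) ≤ ap k⁻¹ (-1) :=
      min_le_of_right_le (by nlinarith)
    have h4 := ap_mono k h3
    rw [ap_ap_inv] at h4
    linarith
  · intro x hx1 hx2
    simp only [ap_sup, ap_inf, ap_mul, ap_aff, ap_one]
    apply max_eq_left
    refine min_le_of_right_le ?_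
    have h3 := ap_mono k hx2
    have h4 : 1 / (ap k (K + 2) - K) * (ap k (K + 2) - K) = 1 := by
      have : ap k (K + 2) - K ≠ 0 := by linarith
      field_simp
    nlinarith

/-- A compatible group structure on the lattice `A`, in unbundled form. -/
structure Compat where
  m : A → A → A
  e : A
  i : A → A
  assoc : ∀ a b c, m (m a b) c = m a (m b c)
  em : ∀ a, m e a = a
  me : ∀ a, m a e = a
  im : ∀ a, m (i a) a = e
  mi : ∀ a, m a (i a) = e
  monoL : ∀ a b c, a ≤ b → m c a ≤ m c b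
  monoR : ∀ a b c, a ≤ b → m a c ≤ m b c

namespace Compat

variable (H : Compat)

/-- left translation -/
def lam (g : A) : A ≃o A where
  toFun := H.m g
  invFun := H.m (H.i g)
  left_inv f := by rw [← H.assoc, H.im, H.em]
  right_inv f := by rw [← H.assoc, H.mi, H.em]
  map_rel_iff' := by
    intro a b
    refine ⟨fun h => ?_, H.monoL _ _ _⟩
    have := H.monoL _ _ (H.i g) h
    simpa only [Equiv.coe_fn_mk, ← H.assoc, H.im, H.em] using this

/-- right translation -/
def rho (g : A) : A ≃o A where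
  toFun := fun f => H.m f g
  invFun := fun f => H.m f (H.i g)
  left_inv f := by simp only [H.assoc, H.mi, H.me]
  right_inv f := by simp only [H.assoc, H.im, H.me]
  map_rel_iff' := by
    intro a b
    refine ⟨fun h => ?_, H.monoR _ _ _⟩
    have := H.monoR _ _ (H.i g) h
    simpa only [Equiv.coe_fn_mk, H.assoc, H.mi, H.me] using this

theorem m_inf (a b f : A) : H.m (a ⊓ b) f = H.m a f ⊓ H.m b f := (H.rho f).map_inf a b

theorem m_sup (a b f : A) : H.m (a ⊔ b) f = H.m a f ⊔ H.m b f := (H.rho f).map_sup a b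

theorem ts (k : A) (hk : 1 ≤ k) :
    ∃ α β : A, 1 ≤ α ∧ 1 ≤ β ∧ ∀ f, H.m (k * H.e) f = α * f * β :=
  two_sided (H.lam (k * H.e)) (fun f => by
    have := H.monoR _ _ f (mul_mono_right H.e hk)
    rwa [one_mul, H.em] at this)

theorem pos_case : (∀ k : A, 1 ≤ k → ∃ α : A, ∀ f, H.m (k * H.e) f = α * f) ∨
    (∀ k : A, 1 ≤ k → ∃ β : A, ∀ f, H.m (k * H.e) f = f * β) := by
  choose α β hα hβ hT using H.ts
  have D : ∀ k hk k' hk', k ⊓ k' = 1 → α k hk ≠ 1 → β k' hk' = 1 := by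
    intro k hk k' hk' h h1
    by_contra h2
    obtain ⟨y, hy⟩ := exists_lt_of_ne (hα k hk) h1
    obtain ⟨x, hx⟩ := exists_lt_of_ne (hβ k' hk') h2
    obtain ⟨f, hf⟩ := exists_one x y
    have h3 := H.m_inf (k * H.e) (k' * H.e) f
    rw [← inf_mul', h, one_mul, H.em, hT k hk, hT k' hk'] at h3
    have h4 := congrArg (fun g => ap g x) h3
    simp only [ap_inf, ap_mul] at h4
    have h5 : ap (α k hk) (ap f x) ≤ ap (α k hk) (ap f (ap (β k hk) x)) :=
      ap_mono _ (ap_mono _ (hβ k hk x))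
    have h6 : ap f (ap (β k' hk') x) ≤ ap (α k' hk') (ap f (ap (β k' hk') x)) := hα k' hk' _
    have h7 := ap_sm f hx
    have h8 := lt_min (a := ap f x) (lt_of_lt_of_le (by rw [hf]; exact hy) h5) (h7.trans_le h6)
    linarith
  have N : ∀ k hk, k ≠ 1 → α k hk = 1 → β k hk ≠ 1 := by
    intro k hk h1 h2 h3
    have h4 := hT k hk H.e
    rw [h2, h3, H.me, one_mul, mul_one] at h4
    exact h1 (by simpa using h4)
  have P : ∀ c d c' d', c < d → c' < d' → α _ (one_le_bump c d) ≠ 1 →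
      α _ (one_le_bump c' d') ≠ 1 := by
    intro c d c' d' h h' h1
    have hM : max d d' < max d d' + 1 := by linarith
    have e1 : bump c d ⊓ bump (max d d') (max d d' + 1) = 1 :=
      inf_bump (one_le_bump _ _) (fun x hx _ => bump_fix (Or.inr ((le_max_left _ _).trans hx)))
    have e2 : bump c' d' ⊓ bump (max d d') (max d d' + 1) = 1 :=
      inf_bump (one_le_bump _ _) (fun x hx _ => bump_fix (Or.inr ((le_max_right _ _).trans hx)))
    have h2 := D _ _ _ (one_le_bump _ _) e1 h1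
    have h3 : α _ (one_le_bump (max d d') (max d d' + 1)) ≠ 1 := fun h4 =>
      N _ _ (bump_ne hM) h4 h2
    have h4 := D _ _ _ (one_le_bump c' d') (by rw [inf_comm, e2]) h3
    exact fun h5 => N _ _ (bump_ne h') h5 h4
  by_cases h0 : α _ (one_le_bump 0 1) = 1
  · right
    have R1 : ∀ k hk c d, c < d → (∀ x, c ≤ x → x ≤ d → ap k x = x) → α k hk = 1 := by
      intro k hk c d hcd hx
      by_contra h1
      have h2 := D _ _ _ (one_le_bump c d) (inf_bump hk hx) h1
      have h3 : α _ (one_le_bump c d) ≠ 1 := fun h4 => N _ _ (bump_ne hcd) h4 h2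
      exact P c d 0 1 hcd one_pos h3 h0
    intro k hk
    obtain ⟨k1, k2, h1, h2, rfl, ⟨c, d, hcd, h3⟩, ⟨c', d', hcd', h4⟩⟩ := decomp hk
    refine ⟨β k1 h1 ⊔ β k2 h2, fun f => ?_⟩
    rw [sup_mul', H.m_sup, hT k1 h1, hT k2 h2, R1 k1 h1 c d hcd h3, R1 k2 h2 c' d' hcd' h4,
      one_mul, mul_sup']
  · left
    have R1 : ∀ k hk c d, c < d → (∀ x, c ≤ x → x ≤ d → ap k x = x) → β k hk = 1 := by
      intro k hk c d hcd hx
      exact D _ (one_le_bump c d) _ hk (by rw [inf_comm, inf_bump hk hx])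
        (P 0 1 c d one_pos hcd h0)
    intro k hk
    obtain ⟨k1, k2, h1, h2, rfl, ⟨c, d, hcd, h3⟩, ⟨c', d', hcd', h4⟩⟩ := decomp hk
    refine ⟨α k1 h1 ⊔ α k2 h2, fun f => ?_⟩
    rw [sup_mul', H.m_sup, hT k1 h1, hT k2 h2, R1 k1 h1 c d hcd h3, R1 k2 h2 c' d' hcd' h4,
      mul_one, mul_one, sup_mul']

theorem pos_decomp (g : A) : ∃ k k' : A, 1 ≤ k ∧ 1 ≤ k' ∧
    ∀ f, H.m g (H.m (k' * H.e) f) = H.m (k * H.e) f := by
  refine ⟨(g ⊔ H.e) * H.e⁻¹, H.m (H.i g) (g ⊔ H.e) * H.e⁻¹, ?_, ?_, fun f => ?_⟩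
  · simpa using mul_mono_right H.e⁻¹ (le_sup_right : H.e ≤ g ⊔ H.e)
  · have := H.monoL _ _ (H.i g) (le_sup_left : g ≤ g ⊔ H.e)
    rw [H.im] at this
    simpa using mul_mono_right H.e⁻¹ this
  · simp only [inv_mul_cancel_right]
    rw [← H.assoc, ← H.assoc, H.mi, H.em]

theorem classify : (∀ g f, H.m g f = g * H.e⁻¹ * f) ∨ (∀ g f, H.m g f = f * H.e⁻¹ * g) := by
  rcases H.pos_case with h | h
  · left
    intro g
    obtain ⟨k, k', hk, hk', e⟩ := H.pos_decomp g
    obtain ⟨α, hα⟩ := h k hk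
    obtain ⟨α', hα'⟩ := h k' hk'
    have h1 : ∀ f, H.m g f = α * α'⁻¹ * f := fun f => by
      have := e (α'⁻¹ * f)
      rw [hα, hα', mul_inv_cancel_left] at this
      rw [this, mul_assoc]
    have h2 := h1 H.e
    rw [H.me] at h2
    intro f
    rw [h1, h2]
    group
  · right
    intro g
    obtain ⟨k, k', hk, hk', e⟩ := H.pos_decomp g
    obtain ⟨α, hα⟩ := h k hk
    obtain ⟨α', hα'⟩ := h k' hk'
    have h1 : ∀ f, H.m g f = f * (α'⁻¹ * α) := fun f => by
      have := e (f * α'⁻¹)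
      rw [hα, hα', inv_mul_cancel_right] at this
      rw [this, mul_assoc]
    have h2 := h1 H.e
    rw [H.me] at h2
    intro f
    rw [h1, h2]
    group

end Compat

/-- The order preserving anti-automorphism `f ↦ r f⁻¹ r`, `r x = -x`. -/
noncomputable def iota (f : A) : A := mk (fun x => -ap f⁻¹ (-x))
  (fun _ _ h => neg_lt_neg (ap_sm f⁻¹ (neg_lt_neg h))) (fun y => ⟨-ap f (-y), by simp⟩)

theorem ap_iota (f : A) (x : ℝ) : ap (iota f) x = -ap f⁻¹ (-x) := rfl

theorem iota_mul (f g : A) : iota (f * g) = iota g * iota f := ext' fun x => by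
  simp [ap_iota]

theorem iota_iota (f : A) : iota (iota f) = f := ext' fun x => by
  rw [ap_iota]
  have : ap (iota f) (-ap f x) = -x := by simp [ap_iota]
  rw [← this, ap_inv_ap, neg_neg]

theorem iota_mono {f g : A} (h : f ≤ g) : iota f ≤ iota g := fun x => by
  rw [ap_iota, ap_iota, neg_le_neg_iff]
  have := ap_mono g⁻¹ (h (ap f⁻¹ (-x)))
  simpa using this

theorem Compat.iso (H : Compat) : ∃ φ : A ≃o A, ∀ x y, φ (x * y) = H.m (φ x) (φ y) := by
  rcases H.classify with h | h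
  · refine ⟨⟨⟨fun x => x * H.e, fun x => x * H.e⁻¹, fun x => by simp, fun x => by simp⟩, ?_⟩, ?_⟩
    · intro a b
      refine ⟨fun h1 => ?_, mul_mono_right _⟩
      simpa using mul_mono_right H.e⁻¹ h1
    · intro x y
      rw [h]
      show x * y * H.e = x * H.e * H.e⁻¹ * (y * H.e)
      group
  · refine ⟨⟨⟨fun x => H.e * iota x, fun x => iota (H.e⁻¹ * x), fun x => by simp [iota_iota],
      fun x => by simp [iota_iota]⟩, ?_⟩, ?_⟩
    · intro a b
      refine ⟨fun h1 => ?_, fun h1 => mul_mono_left _ (iota_mono h1)⟩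
      simpa [iota_iota] using iota_mono (mul_mono_left H.e⁻¹ h1)
    · intro x y
      rw [h]
      show H.e * iota (x * y) = H.e * iota y * H.e⁻¹ * (H.e * iota x)
      rw [iota_mul]
      group

theorem not_comm : ¬ ∀ x y : A, x * y = y * x := by
  intro h
  have := congrArg (fun f => ap f 0) (h (aff 2 (by norm_num) 0 0) (aff 1 one_pos 0 1))
  simp at this

end Pool.Agent.H162Z.AutR
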