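import Mathlib
import Pool.Agent.H445Z.CubSt

/-! Elementary facts on the dyadic grid. -/

namespace Pool.Agent.H162Z.CubGrid

open Pool.Agent.H445Z.Cub Finset

lemma sum_val (n : ℕ) [NeZero n] (f : ℕ → ℝ) :
    ∑ y : ZMod n, f y.val = ∑ v ∈ range n, f v := by
  refine Finset.sum_nbij' (fun y => y.val) (fun v => (v : ZMod n)) ?_ ?_ ?_ ?_ ?_
  · intro y _
    exact mem_range.2 (ZMod.val_lt y)
  · intro v _
    exact mem_univ _
  · intro y _
    exact ZMod.natCast_zmod_val y
  · intro v hv
    exact ZMod.val_cast_of_lt (mem_range.1 hv)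
  · intro y _
    rfl

lemma sum_div (K : ℕ) (hK : 0 < K) (g : ℕ → ℝ) (n : ℕ) :
    ∑ v ∈ range (K * n), g (v / K) = K * ∑ c ∈ range n, g c := by
  induction n with
  | zero => simp
  | succ n ih =>
    rw [Nat.mul_succ, Finset.sum_range_add, ih, Finset.sum_range_succ, mul_add]
    congr 1
    have : ∀ x ∈ range K, g ((K * n + x) / K) = g n := by
      intro x hx
      rw [Nat.mul_add_div hK, Nat.div_eq_of_lt (mem_range.1 hx), add_zero]
    rw [Finset.sum_congr rfl this]
    simp

lemma pow_split (M a : ℕ) : 2 ^ M = 2 ^ (M - a) * 2 ^ (M - (M - a)) := by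
  rw [← pow_add]
  congr 1
  omega

lemma sum_cell (M a : ℕ) (g : ℕ → ℝ) :
    ∑ y : Gr M, g (cell M a y) = 2 ^ (M - a) * ∑ c ∈ range (2 ^ (M - (M - a))), g c := by
  have h := sum_val (2 ^ M) (fun v => g (v / 2 ^ (M - a)))
  have h2 := sum_div (2 ^ (M - a)) (by positivity) g (2 ^ (M - (M - a)))
  rw [← pow_split] at h2
  unfold cell
  rw [h, h2]
  push_cast
  rfl

lemma cell_lt (M a : ℕ) (x : Gr M) : cell M a x < 2 ^ (M - (M - a)) := by
  unfold cell
  rw [Nat.div_lt_iff_lt_mul (by positivity), mul_comm, ← pow_split]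
  exact ZMod.val_lt x

lemma row_sum (M a : ℕ) (x : Gr M) : ∑ y, eM M a x y = 1 := by
  have h := sum_cell M a (fun c => if cell M a x = c then ((2 : ℝ) ^ (M - a))⁻¹ else 0)
  unfold eM
  rw [h, Finset.sum_ite_eq, if_pos (mem_range.2 (cell_lt M a x))]
  exact mul_inv_cancel₀ (by positivity)

lemma eM_symm (M a : ℕ) (x y : Gr M) : eM M a x y = eM M a y x := by
  unfold eM
  by_cases h : cell M a x = cell M a y
  · rw [if_pos h, if_pos h.symm]
  · rw [if_neg h, if_neg (Ne.symm h)]

lemma cell_div (M a b : ℕ) (hab : a ≤ b) (x : Gr M) :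
    cell M a x = cell M b x / 2 ^ ((M - a) - (M - b)) := by
  unfold cell
  rw [Nat.div_div_eq_div_mul, ← pow_add]
  congr 2
  omega

lemma nested (M a b : ℕ) (hab : a ≤ b) (x y : Gr M) (h : cell M b x = cell M b y) :
    cell M a x = cell M a y := by
  rw [cell_div M a b hab x, cell_div M a b hab y, h]

lemma eM_mul (M a b : ℕ) : eM M a * eM M b = eM M (min a b) := by
  ext x z
  rw [Matrix.mul_apply]
  rcases le_total a b with hab | hab
  · rw [min_eq_left hab]
    have : ∀ y, eM M a x y * eM M b y z = eM M a x z * eM M b z y := by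
      intro y
      rw [eM_symm M b z y]
      by_cases h : cell M b y = cell M b z
      · have h' := nested M a b hab y z h
        congr 1
        unfold eM
        rw [h']
      · have : eM M b y z = 0 := by
          unfold eM
          rw [if_neg h]
        rw [this, mul_zero, mul_zero]
    rw [Finset.sum_congr rfl fun y _ => this y, ← Finset.mul_sum, row_sum, mul_one]
  · rw [min_eq_right hab]
    have : ∀ y, eM M a x y * eM M b y z = eM M a x y * eM M b x z := by
      intro y
      by_cases h : cell M a x = cell M a y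
      · have h' := nested M b a hab x y h
        congr 1
        unfold eM
        rw [h']
      · have : eM M a x y = 0 := by
          unfold eM
          rw [if_neg h]
        rw [this, zero_mul, zero_mul]
    rw [Finset.sum_congr rfl fun y _ => this y, ← Finset.sum_mul, row_sum, one_mul]

lemma eM_top (M : ℕ) : eM M M = 1 := by
  ext x y
  unfold eM cell
  rw [Nat.sub_self, pow_zero, pow_zero, Nat.div_one, Nat.div_one, Matrix.one_apply, inv_one]
  by_cases h : x = y
  · rw [if_pos h, if_pos (by rw [h])]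
  · rw [if_neg h, if_neg (fun h' => h (ZMod.val_injective _ h'))]

lemma dM_succ (M k : ℕ) (hk : k + 1 ≤ M) :
    dM M ((k + 1 : ℕ) : ℤ) = eM M (k + 1) - eM M k := by
  unfold dM
  rw [if_neg (by omega), if_pos ⟨by omega, by omega⟩, Int.toNat_natCast, Nat.add_sub_cancel]

lemma tele (M k : ℕ) (hk : k ≤ M) : ∑ n ∈ range (k + 1), dM M (n : ℤ) = eM M k := by
  induction k with
  | zero => simp [dM]
  | succ k ih =>
    rw [Finset.sum_range_succ, ih (by omega), dM_succ M k hk]
    abel

lemma sum_dM (M a : ℕ) (ha : a ≤ M) : ∑ τ ∈ Icc (-(M : ℤ)) M, dM M (a + τ) = 1 := by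
  rw [← eM_top, ← tele M M le_rfl]
  symm
  refine Finset.sum_of_injOn (fun n : ℕ => (n : ℤ) - a) ?_ ?_ ?_ ?_
  · intro x _ y _ h
    simp only at h
    omega
  · intro x hx
    have := mem_range.1 hx
    simp only [coe_Icc, Set.mem_Icc]
    omega
  · intro τ _ hτ
    unfold dM
    by_cases h0 : (a : ℤ) + τ = 0
    · exact absurd ⟨0, by simp, by simp only; omega⟩ hτ
    · rw [if_neg h0, if_neg]
      rintro ⟨h1, h2⟩
      refine hτ ⟨((a : ℤ) + τ).toNat, ?_, ?_⟩
      · simp only [coe_range, Set.mem_Iio]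
        omega
      · simp only
        omega
  · intro n _
    congr 1
    ring

/-- Flip of the binary digit number `k`. -/
def flip (M k : ℕ) (x : Gr M) : Gr M := ((x.val ^^^ 2 ^ k : ℕ) : Gr M)

lemma flip_val (M k : ℕ) (hk : k < M) (x : Gr M) : (flip M k x).val = x.val ^^^ 2 ^ k := by
  unfold flip
  exact ZMod.val_cast_of_lt
    (Nat.xor_lt_two_pow (ZMod.val_lt x) (Nat.pow_lt_pow_right (by norm_num) hk))

lemma flip_inv (M k : ℕ) (hk : k < M) : Function.Involutive (flip M k) := by
  intro x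
  apply ZMod.val_injective
  rw [flip_val M k hk, flip_val M k hk, Nat.xor_assoc, Nat.xor_self, Nat.xor_zero]

lemma xor_div (a b j : ℕ) : (a ^^^ b) / 2 ^ j = (a / 2 ^ j) ^^^ (b / 2 ^ j) := by
  rw [← Nat.shiftRight_eq_div_pow, ← Nat.shiftRight_eq_div_pow, ← Nat.shiftRight_eq_div_pow,
    Nat.shiftRight_xor_distrib]

lemma cell_flip_lt (M a a' : ℕ) (h1 : a' < a) (h2 : a ≤ M) (x : Gr M) :
    cell M a' (flip M (M - a) x) = cell M a' x := by
  unfold cell
  rw [flip_val M (M - a) (by omega), xor_div,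
    Nat.div_eq_of_lt (Nat.pow_lt_pow_right (by norm_num) (by omega : M - a < M - a')),
    Nat.xor_zero]

lemma cell_flip_eq (M a : ℕ) (h1 : 1 ≤ a) (h2 : a ≤ M) (x : Gr M) :
    cell M a (flip M (M - a) x) = cell M a x ^^^ 1 := by
  unfold cell
  rw [flip_val M (M - a) (by omega), xor_div, Nat.div_self (by positivity)]

lemma xor_one_cases (c : ℕ) : (c % 2 = 0 ∧ c ^^^ 1 = c + 1) ∨ (c % 2 = 1 ∧ c ^^^ 1 = c - 1) := by
  rcases Nat.even_or_odd c with h | h
  · exact Or.inl ⟨Nat.even_iff.1 h, Nat.xor_one_of_even h⟩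
  · exact Or.inr ⟨Nat.odd_iff.1 h, Nat.xor_one_of_odd h⟩

/-- The sign-changing permutations. -/
noncomputable def sig (M a : ℕ) : Equiv.Perm (Gr M) :=
  if h : 1 ≤ a ∧ a ≤ M then (flip_inv M (M - a) (by omega)).toPerm else 1

lemma sig_pos (M a : ℕ) (h1 : 1 ≤ a) (h2 : a ≤ M) (x : Gr M) :
    sig M a x = flip M (M - a) x := by
  unfold sig
  rw [dif_pos ⟨h1, h2⟩]
  rfl

lemma eM_sig_lt (M a a' : ℕ) (h : a' < a) (x y : Gr M) :
    eM M a' (sig M a x) y = eM M a' x y := by
  by_cases h2 : a ≤ M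
  · rw [sig_pos M a (by omega) h2]
    unfold eM
    rw [cell_flip_lt M a a' h h2]
  · unfold sig
    rw [dif_neg (by omega)]
    rfl

lemma dM_sig_lt (M : ℕ) (b : ℤ) (a : ℕ) (h : b < a) (x y : Gr M) :
    dM M b (sig M a x) y = dM M b x y := by
  unfold dM
  split_ifs with h0 h1
  · exact eM_sig_lt M a 0 (by omega) x y
  · rw [Matrix.sub_apply, Matrix.sub_apply, eM_sig_lt M a _ (by omega),
      eM_sig_lt M a _ (by omega)]
  · rfl

lemma dM_sig_eq (M a : ℕ) (h1 : 1 ≤ a) (x y : Gr M) :
    dM M a (sig M a x) y = - dM M a x y := by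
  by_cases h2 : a ≤ M
  · obtain ⟨k, rfl⟩ : ∃ k, a = k + 1 := ⟨a - 1, by omega⟩
    rw [dM_succ M k h2, Matrix.sub_apply, Matrix.sub_apply,
      eM_sig_lt M (k + 1) k (by omega), sig_pos M (k + 1) h1 h2]
    unfold eM
    rw [cell_flip_eq M (k + 1) h1 h2, cell_div M k (k + 1) (by omega) x,
      cell_div M k (k + 1) (by omega) y]
    have e1 : M - k - (M - (k + 1)) = 1 := by omega
    have e2 : M - k = (M - (k + 1)) + 1 := by omega
    rw [e1, pow_one, e2, pow_succ]
    generalize cell M (k + 1) x = c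
    generalize cell M (k + 1) y = c'
    have hK : (2 : ℝ) ^ (M - (k + 1)) ≠ 0 := by positivity
    generalize (2 : ℝ) ^ (M - (k + 1)) = K at hK
    rcases xor_one_cases c with ⟨h3, h4⟩ | ⟨h3, h4⟩ <;> rw [h4] <;> split_ifs <;>
      first
        | (exfalso; omega)
        | (field_simp; ring)
  · have : dM M a = 0 := by
      unfold dM
      rw [if_neg (by omega), if_neg (by omega)]
    rw [this]
    simp

lemma floor_eq (N K : ℕ) [NeZero N] (z : ZMod N) :
    z - ((z.val % K : ℕ) : ZMod N) = ((K * (z.val / K) : ℕ) : ZMod N) := by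
  rw [sub_eq_iff_eq_add, ← Nat.cast_add, Nat.div_add_mod, ZMod.natCast_zmod_val]

lemma three (N K : ℕ) [NeZero N] (hK : K ∣ N) (hK0 : 0 < K) (v y : ZMod N) (r1 r2 : ℕ)
    (h1 : r1 < K) (h2 : r2 < K) (h : y + r1 = v + r2) :
    v.val / K = y.val / K ∨ (v + K).val / K = y.val / K ∨ (v - K).val / K = y.val / K := by
  have A : ∀ z z' : ZMod N, z - ((z.val % K : ℕ) : ZMod N) = z' - ((z'.val % K : ℕ) : ZMod N) →
      z.val / K = z'.val / K := by
    intro z z' hz
    rw [floor_eq, floor_eq, ZMod.natCast_eq_natCast_iff',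
      Nat.mod_eq_of_lt (lt_of_le_of_lt (Nat.mul_div_le _ _) (ZMod.val_lt z)),
      Nat.mod_eq_of_lt (lt_of_le_of_lt (Nat.mul_div_le _ _) (ZMod.val_lt z'))] at hz
    exact Nat.eq_of_mul_eq_mul_left hK0 hz
  have B : ∀ (z z' : ZMod N) (a b : ℕ), z + a = z' + b → (z.val + a) % K = (z'.val + b) % K := by
    intro z z' a b hz
    have : ((z.val + a : ℕ) : ZMod N) = ((z'.val + b : ℕ) : ZMod N) := by
      rw [Nat.cast_add, Nat.cast_add, ZMod.natCast_zmod_val, ZMod.natCast_zmod_val, hz]
    exact ((ZMod.natCast_eq_natCast_iff _ _ _).1 this).of_dvd hK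
  have C : ∀ a : ℕ, a < 2 * K → a % K = a ∨ a % K + K = a := by
    intro a ha
    by_cases h : a < K
    · exact Or.inl (Nat.mod_eq_of_lt h)
    · right
      rw [Nat.mod_eq_sub_mod (by omega), Nat.mod_eq_of_lt (by omega)]
      omega
  have hb := B y v r1 r2 h
  rw [← Nat.mod_add_mod, ← Nat.mod_add_mod v.val] at hb
  have hp : (v + K).val % K = v.val % K := by
    have := B (v + K) v 0 K (by simp)
    simpa using this
  have hm : (v - K).val % K = v.val % K := by
    have := B (v - K) v K 0 (by simp)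
    simpa using this
  have hy := Nat.mod_lt y.val hK0
  have hv := Nat.mod_lt v.val hK0
  have c1 := C (y.val % K + r1) (by omega)
  have c2 := C (v.val % K + r2) (by omega)
  have D : y.val % K + r1 = v.val % K + r2 ∨ y.val % K + r1 + K = v.val % K + r2 ∨
      y.val % K + r1 = v.val % K + r2 + K := by omega
  rcases D with D | D | D
  · left
    apply A
    have := congrArg (Nat.cast : ℕ → ZMod N) D
    rw [Nat.cast_add, Nat.cast_add] at this
    linear_combination this - h
  · right
    left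
    apply A
    rw [hp]
    have := congrArg (Nat.cast : ℕ → ZMod N) D
    rw [Nat.cast_add, Nat.cast_add, Nat.cast_add] at this
    linear_combination this - h
  · right
    right
    apply A
    rw [hm]
    have := congrArg (Nat.cast : ℕ → ZMod N) D
    rw [Nat.cast_add, Nat.cast_add, Nat.cast_add] at this
    linear_combination this - h

lemma eM_nonneg (M a : ℕ) (x y : Gr M) : 0 ≤ eM M a x y := by
  unfold eM
  split_ifs
  · positivity
  · exact le_rfl

lemma shift (M t : ℕ) (u x y : Gr M) : eM M t x (y - u) ≤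
    eM M t (x + u) y + eM M t (x + u + 2 ^ (M - t)) y + eM M t (x + u - 2 ^ (M - t)) y := by
  have n1 := eM_nonneg M t (x + u) y
  have n2 := eM_nonneg M t (x + u + 2 ^ (M - t)) y
  have n3 := eM_nonneg M t (x + u - 2 ^ (M - t)) y
  by_cases h : cell M t x = cell M t (y - u)
  · have hK0 : 0 < 2 ^ (M - t) := by positivity
    have e : y + ((x.val % 2 ^ (M - t) : ℕ) : Gr M) =
        x + u + (((y - u).val % 2 ^ (M - t) : ℕ) : Gr M) := by
      have f1 := floor_eq (2 ^ M) (2 ^ (M - t)) x
      have f2 := floor_eq (2 ^ M) (2 ^ (M - t)) (y - u)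
      unfold cell at h
      rw [h, ← f2] at f1
      linear_combination -f1
    have h3 := three (2 ^ M) (2 ^ (M - t)) (pow_dvd_pow 2 (Nat.sub_le _ _)) hK0 (x + u) y _ _
      (Nat.mod_lt _ hK0) (Nat.mod_lt _ hK0) e
    have hc : (((2 ^ (M - t) : ℕ)) : Gr M) = 2 ^ (M - t) := by push_cast; rfl
    rw [hc] at h3
    have hl : eM M t x (y - u) = ((2 : ℝ) ^ (M - t))⁻¹ := by
      unfold eM
      rw [if_pos h]
    rw [hl]
    rcases h3 with h3 | h3 | h3
    · have : eM M t (x + u) y = ((2 : ℝ) ^ (M - t))⁻¹ := by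
        unfold eM
        exact if_pos h3
      linarith
    · have : eM M t (x + u + 2 ^ (M - t)) y = ((2 : ℝ) ^ (M - t))⁻¹ := by
        unfold eM
        exact if_pos h3
      linarith
    · have : eM M t (x + u - 2 ^ (M - t)) y = ((2 : ℝ) ^ (M - t))⁻¹ := by
        unfold eM
        exact if_pos h3
      linarith
  · have hl : eM M t x (y - u) = 0 := by
      unfold eM
      rw [if_neg h]
    rw [hl]
    linarith

theorem thm_grid : S_grid := by
  intro M
  refine ⟨eM_mul M, row_sum M, nested M, sum_dM M, ⟨sig M, dM_sig_lt M, dM_sig_eq M⟩,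
    shift M, ?_⟩
  intro a ha g
  rw [sum_cell, Nat.sub_sub_self ha]

end Pool.Agent.H162Z.CubGrid
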