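import Mathlib

set_option autoImplicit false

namespace Pool.Agent.H162Z.Kok

/-- A total order on a group which is invariant under multiplication on both sides. -/
def IsBiOrder {G : Type} [Group G] (o : LinearOrder G) : Prop :=
  ∀ a b x y : G, o.le a b → o.le (x * a * y) (x * b * y)

/-- A group is orderable if it has a two-sided invariant total order. -/
def Orderable (G : Type) [Group G] : Prop := ∃ o : LinearOrder G, IsBiOrder o

/-- A subgroup is relatively convex if it is convex for some two-sided invariant total order. -/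
def RelConvex {G : Type} [Group G] (K : Subgroup G) : Prop :=
  ∃ o : LinearOrder G, IsBiOrder o ∧
    ∀ k₁ ∈ K, ∀ k₂ ∈ K, ∀ g : G, o.le k₁ g → o.le g k₂ → g ∈ K

/-- `H` is infrainvariant: for each `g`, `H ⊆ g⁻¹ H g` or `g⁻¹ H g ⊆ H`. -/
def Infrainvariant {G : Type} [Group G] (H : Subgroup G) : Prop :=
  ∀ g : G, (H : Set G) ⊆ (fun h => g⁻¹ * h * g) '' (H : Set G) ∨
    (fun h => g⁻¹ * h * g) '' (H : Set G) ⊆ (H : Set G)

end Pool.Agent.H162Z.Kok
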