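import Pool.Agent.H162Z.KokLex

set_option autoImplicit false

namespace Pool.Agent.H162Z.Kok

/-- The properties of the ring `ℚ[T]` localised at `T = -1` that are used. -/
structure Data (Λ : Type) [CommRing Λ] where
  T : Λˣ
  E : Λ →+* Λ
  φ : Λ →+* ℝ
  ψ : Λ →+* ℝ
  hE : E T = -1
  hEE : ∀ r, E (E r) = E r
  hφ : Function.Injective φ
  hψ : Function.Injective ψ
  hφT : 0 < φ T
  hψT : ψ T < 0
  hfac : ∀ r, r ≠ 0 → ∃ (i : ℕ) (u : Λ), r = (1 + (T : Λ)) ^ i * u ∧ E u ≠ 0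

variable {Λ : Type} [CommRing Λ]

namespace Data

variable (D : Data Λ)

def σ (k : ℤ) : Λ := ((D.T ^ k : Λˣ) : Λ)

def q : Λ := 1 + (D.T : Λ)

theorem σ_add (k l : ℤ) : D.σ (k + l) = D.σ k * D.σ l := by simp [σ, zpow_add]

@[simp] theorem σ_zero : D.σ 0 = 1 := by simp [σ]

theorem σ_one : D.σ 1 = D.T := by simp [σ]

theorem σ_neg_mul (k : ℤ) : D.σ (-k) * D.σ k = 1 := by rw [← σ_add]; simp

theorem Eσ_neg_mul (k : ℤ) : D.E (D.σ (-k)) * D.E (D.σ k) = 1 := by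
  rw [← map_mul, σ_neg_mul, map_one]

theorem map_σ (f : Λ →+* ℝ) (k : ℤ) : f (D.σ k) = (f D.T) ^ k := by
  have h1 : f (D.σ k) = ((Units.map (f : Λ →* ℝ) (D.T ^ k) : ℝˣ) : ℝ) := rfl
  rw [h1, map_zpow, Units.val_zpow_eq_zpow_val]
  rfl

@[simp] theorem E_q : D.E D.q = 0 := by simp [q, D.hE]

theorem φσ_pos (k : ℤ) : 0 < D.φ (D.σ k) := by
  rw [map_σ]; exact zpow_pos D.hφT k

theorem ψσ_pos (k : ℤ) : 0 < D.ψ (D.E (D.σ (-k)) * D.σ k) := by
  have h1 := D.map_σ (D.ψ.comp D.E) (-k)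
  simp only [RingHom.comp_apply, D.hE, map_neg, map_one] at h1
  rw [map_mul, h1, map_σ, zpow_neg, ← inv_zpow, ← mul_zpow]
  apply zpow_pos
  have := D.hψT
  norm_num
  linarith

include D in
theorem sq_add_sq {a b : Λ} (h : a ^ 2 + b ^ 2 = 0) : a = 0 ∧ b = 0 := by
  have h1 := congrArg D.φ h
  rw [map_add, map_pow, map_pow, map_zero] at h1
  constructor
  · apply D.hφ; rw [map_zero]; nlinarith [sq_nonneg (D.φ a), sq_nonneg (D.φ b)]
  · apply D.hφ; rw [map_zero]; nlinarith [sq_nonneg (D.φ a), sq_nonneg (D.φ b)]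

theorem fac2 (α β : Λ) : ∃ κ α0 β0 : Λ, α = κ * α0 ∧ β = κ * β0 ∧ (D.E α0 ≠ 0 ∨ D.E β0 ≠ 0) := by
  have h1 : D.E 1 ≠ 0 := by
    rw [map_one]
    intro h
    have := congrArg D.φ h
    simp at this
  by_cases hα : α = 0
  · exact ⟨β, 0, 1, by simp [hα], by simp, Or.inr h1⟩
  by_cases hβ : β = 0
  · exact ⟨α, 1, 0, by simp, by simp [hβ], Or.inl h1⟩
  obtain ⟨i, u, hu, hu'⟩ := D.hfac α hα
  obtain ⟨j, v, hv, hv'⟩ := D.hfac β hβ
  rcases le_total i j with h | h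
  · obtain ⟨d, rfl⟩ := Nat.exists_eq_add_of_le h
    exact ⟨(1 + (D.T : Λ)) ^ i, u, (1 + (D.T : Λ)) ^ d * v, hu, by rw [hv]; ring, Or.inl hu'⟩
  · obtain ⟨d, rfl⟩ := Nat.exists_eq_add_of_le h
    exact ⟨(1 + (D.T : Λ)) ^ j, (1 + (D.T : Λ)) ^ d * u, v, by rw [hu]; ring, hv, Or.inr hv'⟩

end Data

/-- The group `Λ⁴ ⋊ (Λ ⋊ ℤ)`. -/
@[ext] structure GK (D : Data Λ) where
  k : ℤ
  μ : Λ
  b1 : Λ
  b2 : Λ
  c1 : Λ
  c2 : Λ

variable {D : Data Λ}

instance : Mul (GK D) := ⟨fun a b => ⟨a.k + b.k, D.σ a.k * b.μ + D.E (D.σ b.k) * a.μ,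
  a.b1 + D.σ a.k * b.b1, a.b2 + D.σ a.k * b.b2,
  a.c1 + D.σ a.k * b.c1 + a.μ * D.E b.b1, a.c2 + D.σ a.k * b.c2 + a.μ * D.E b.b2⟩⟩

instance : One (GK D) := ⟨⟨0, 0, 0, 0, 0, 0⟩⟩

instance : Inv (GK D) := ⟨fun a => ⟨-a.k, -(D.σ (-a.k) * D.E (D.σ (-a.k)) * a.μ),
  -(D.σ (-a.k) * a.b1), -(D.σ (-a.k) * a.b2),
  -(D.σ (-a.k) * a.c1) + D.σ (-a.k) * D.E (D.σ (-a.k)) * a.μ * D.E a.b1,
  -(D.σ (-a.k) * a.c2) + D.σ (-a.k) * D.E (D.σ (-a.k)) * a.μ * D.E a.b2⟩⟩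

@[simp] theorem mul_k (a b : GK D) : (a * b).k = a.k + b.k := rfl
@[simp] theorem mul_μ (a b : GK D) : (a * b).μ = D.σ a.k * b.μ + D.E (D.σ b.k) * a.μ := rfl
@[simp] theorem mul_b1 (a b : GK D) : (a * b).b1 = a.b1 + D.σ a.k * b.b1 := rfl
@[simp] theorem mul_b2 (a b : GK D) : (a * b).b2 = a.b2 + D.σ a.k * b.b2 := rfl
@[simp] theorem mul_c1 (a b : GK D) :
    (a * b).c1 = a.c1 + D.σ a.k * b.c1 + a.μ * D.E b.b1 := rfl
@[simp] theorem mul_c2 (a b : GK D) :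
    (a * b).c2 = a.c2 + D.σ a.k * b.c2 + a.μ * D.E b.b2 := rfl
@[simp] theorem one_k : (1 : GK D).k = 0 := rfl
@[simp] theorem one_μ : (1 : GK D).μ = 0 := rfl
@[simp] theorem one_b1 : (1 : GK D).b1 = 0 := rfl
@[simp] theorem one_b2 : (1 : GK D).b2 = 0 := rfl
@[simp] theorem one_c1 : (1 : GK D).c1 = 0 := rfl
@[simp] theorem one_c2 : (1 : GK D).c2 = 0 := rfl
@[simp] theorem inv_k (a : GK D) : (a⁻¹).k = -a.k := rfl
@[simp] theorem inv_μ (a : GK D) : (a⁻¹).μ = -(D.σ (-a.k) * D.E (D.σ (-a.k)) * a.μ) := rfl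
@[simp] theorem inv_b1 (a : GK D) : (a⁻¹).b1 = -(D.σ (-a.k) * a.b1) := rfl
@[simp] theorem inv_b2 (a : GK D) : (a⁻¹).b2 = -(D.σ (-a.k) * a.b2) := rfl
@[simp] theorem inv_c1 (a : GK D) :
    (a⁻¹).c1 = -(D.σ (-a.k) * a.c1) + D.σ (-a.k) * D.E (D.σ (-a.k)) * a.μ * D.E a.b1 := rfl
@[simp] theorem inv_c2 (a : GK D) :
    (a⁻¹).c2 = -(D.σ (-a.k) * a.c2) + D.σ (-a.k) * D.E (D.σ (-a.k)) * a.μ * D.E a.b2 := rfl

instance : Group (GK D) := Group.ofLeftAxioms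
  (by
    intro a b c
    ext <;> simp only [mul_k, mul_μ, mul_b1, mul_b2, mul_c1, mul_c2, D.σ_add, map_add, map_mul] <;>
      ring)
  (by
    intro a
    ext <;> simp)
  (by
    intro a
    have h := D.Eσ_neg_mul a.k
    ext <;> simp only [mul_k, mul_μ, mul_b1, mul_b2, mul_c1, mul_c2, inv_k, inv_μ, inv_b1, inv_b2,
      inv_c1, inv_c2, one_k, one_μ, one_b1, one_b2, one_c1, one_c2]
    · ring
    · linear_combination (-(D.σ (-a.k) * a.μ)) * h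
    · ring
    · ring
    · ring
    · ring)

theorem conj_μ (y g : GK D) (hk : g.k = 0) :
    (y * g * y⁻¹).μ = D.E (D.σ (-y.k)) * D.σ y.k * g.μ := by
  have h := D.σ_neg_mul y.k
  simp only [mul_k, mul_μ, inv_k, inv_μ, hk, add_zero, Data.σ_zero, map_one]
  linear_combination (-(D.E (D.σ (-y.k)) * y.μ)) * h

theorem conj_eq (y g : GK D) (hk : g.k = 0) (hμ : g.μ = 0) :
    y * g * y⁻¹ = ⟨0, 0, D.σ y.k * g.b1, D.σ y.k * g.b2,
      D.σ y.k * g.c1 + y.μ * D.E g.b1, D.σ y.k * g.c2 + y.μ * D.E g.b2⟩ := by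
  have h := D.σ_neg_mul y.k
  ext <;> simp only [mul_k, mul_μ, mul_b1, mul_b2, mul_c1, mul_c2, inv_k, inv_μ, inv_b1, inv_b2,
      inv_c1, inv_c2, hk, hμ, add_zero, Data.σ_zero, map_one, map_neg, map_mul]
  · ring
  · linear_combination (-(D.E (D.σ (-y.k)) * y.μ)) * h
  · linear_combination (-y.b1) * h
  · linear_combination (-y.b2) * h
  · linear_combination (-y.c1 + D.E (D.σ (-y.k)) * y.μ * D.E y.b1) * h
  · linear_combination (-y.c2 + D.E (D.σ (-y.k)) * y.μ * D.E y.b2) * h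

/-- The normal subgroup which is a union of relatively convex subgroups. -/
def HH (D : Data Λ) : Subgroup (GK D) where
  carrier := {a | a.k = 0 ∧ a.μ = 0 ∧ a.b1 = D.q * a.c2 ∧ a.b2 = -(D.q * a.c1)}
  one_mem' := ⟨rfl, rfl, by simp, by simp⟩
  mul_mem' := by
    rintro a b ⟨a1, a2, a3, a4⟩ ⟨b1, b2, b3, b4⟩
    refine ⟨by simp [a1, b1], by simp [a2, b2], ?_, ?_⟩
    · simp only [mul_b1, mul_c2, a1, a2, Data.σ_zero, a3, b3]; ring
    · simp only [mul_b2, mul_c1, a1, a2, Data.σ_zero, a4, b4]; ring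
  inv_mem' := by
    rintro a ⟨a1, a2, a3, a4⟩
    refine ⟨by simp [a1], by simp [a2], ?_, ?_⟩
    · simp only [inv_b1, inv_c2, a1, a2, neg_zero, Data.σ_zero, a3]; ring
    · simp only [inv_b2, inv_c1, a1, a2, neg_zero, Data.σ_zero, a4]; ring

theorem HH_normal : (HH D).Normal := ⟨by
  rintro a ⟨a1, a2, a3, a4⟩ y
  rw [conj_eq y a a1 a2]
  refine ⟨rfl, rfl, ?_, ?_⟩
  · simp only [a3, a4, map_neg, map_mul, D.E_q]; ring
  · simp only [a3, a4, map_neg, map_mul, D.E_q]; ring⟩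

theorem HH_not_relConvex : ¬ RelConvex (HH D) := by
  rintro ⟨o, ho, hc⟩
  let _ := o
  have hmul : ∀ a b : GK D, 1 ≤ a → 1 ≤ b → 1 ≤ a * b := fun a b ha hb => by
    have h1 : a ≤ a * b := by simpa using ho 1 b a 1 hb
    exact le_trans ha h1
  have hle : ∀ a b : GK D, 1 ≤ b → a ≤ a * b := fun a b hb => by simpa using ho 1 b a 1 hb
  have hconj : ∀ a y : GK D, 1 ≤ a → 1 ≤ y * a * y⁻¹ := fun a y ha => by
    simpa using ho 1 a y y⁻¹ ha
  have htot : ∀ a : GK D, 1 ≤ a ∨ 1 ≤ a⁻¹ := fun a => by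
    rcases le_total 1 a with h | h
    · exact Or.inl h
    · exact Or.inr (by simpa using ho a 1 a⁻¹ 1 h)
  obtain ⟨s, hs, hEs, hU⟩ : ∃ s : Λ, s * s = 1 ∧ D.E s = s ∧ (1 : GK D) ≤ ⟨0, 0, s, 0, 0, 0⟩ := by
    rcases htot ⟨0, 0, 1, 0, 0, 0⟩ with h | h
    · exact ⟨1, by simp, by simp, h⟩
    · refine ⟨-1, by simp, by simp, ?_⟩
      convert h using 1
      ext <;> simp
  obtain ⟨t, ht, hEt, hV⟩ : ∃ t : Λ, t * t = 1 ∧ D.E t = t ∧ (1 : GK D) ≤ ⟨0, 0, 0, t, 0, 0⟩ := by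
    rcases htot ⟨0, 0, 0, 1, 0, 0⟩ with h | h
    · exact ⟨1, by simp, by simp, h⟩
    · refine ⟨-1, by simp, by simp, ?_⟩
      convert h using 1
      ext <;> simp
  have p1 := hconj _ ⟨0, -(s * t), 0, 0, 0, 0⟩ hU
  have p2 := hconj _ ⟨0, s * t, 0, 0, 0, 0⟩ hV
  have p3 := hconj _ ⟨1, 0, 0, 0, 0, 0⟩ hU
  have p4 := hconj _ ⟨1, 0, 0, 0, 0, 0⟩ hV
  rw [conj_eq _ _ rfl rfl] at p1 p2 p3 p4
  have h5 := hle _ _ (hmul _ _ p2 (hmul _ _ p3 p4)) |> fun h => hc 1 (HH D).one_mem _ ?_ _ p1 h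
  · obtain ⟨-, -, h6, -⟩ := h5
    simp only [Data.σ_zero, mul_zero, map_zero, add_zero, one_mul] at h6
    rw [h6, mul_zero] at hs
    have := congrArg D.φ hs
    simp at this
  · refine ⟨by simp, by simp, ?_, ?_⟩
    · simp only [mul_b1, mul_c2, mul_b2, Data.σ_zero, D.σ_one, hEs, hEt, map_zero, Data.q]
      linear_combination (-((1 + (D.T : Λ)) * s)) * ht
    · simp only [mul_b1, mul_c1, mul_b2, Data.σ_zero, D.σ_one, hEs, hEt, map_zero, Data.q]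
      linear_combination (-((1 + (D.T : Λ)) * t)) * hs

/-- The functions defining the lexicographic order attached to a primitive pair `(α, β)`. -/
noncomputable def ff (α β : Λ) : ℕ → GK D → ℝ
  | 0 => fun a => a.k
  | 1 => fun a => D.ψ a.μ
  | 2 => fun a => D.φ (α * a.b1 + β * a.b2)
  | 3 => fun a => D.φ (-(D.E β * a.b1) + D.E α * a.b2 + D.q * (D.E α * a.c1 + D.E β * a.c2))
  | 4 => fun a => D.φ (β * a.c1 - α * a.c2)
  | 5 => fun a => D.φ (D.E α * a.c1 + D.E β * a.c2)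
  | _ => fun _ => 0

section
variable {α β : Λ}

theorem Z0 {a : GK D} {i : ℕ} (h : ∀ j < i + 1, ff α β j a = 0) : a.k = 0 := by
  have := h 0 (by omega)
  simpa [ff] using this

theorem Z1 {a : GK D} {i : ℕ} (h : ∀ j < i + 2, ff α β j a = 0) : a.μ = 0 := by
  have := h 1 (by omega)
  exact D.hψ (by simpa [ff] using this)

theorem Z2 {a : GK D} {i : ℕ} (h : ∀ j < i + 3, ff α β j a = 0) : α * a.b1 + β * a.b2 = 0 := by
  have := h 2 (by omega)
  exact D.hφ (by rw [map_zero]; exact this)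

theorem Z3 {a : GK D} {i : ℕ} (h : ∀ j < i + 4, ff α β j a = 0) :
    -(D.E β * a.b1) + D.E α * a.b2 + D.q * (D.E α * a.c1 + D.E β * a.c2) = 0 := by
  have := h 3 (by omega)
  exact D.hφ (by rw [map_zero]; exact this)

theorem Z4 {a : GK D} {i : ℕ} (h : ∀ j < i + 5, ff α β j a = 0) : β * a.c1 - α * a.c2 = 0 := by
  have := h 4 (by omega)
  exact D.hφ (by rw [map_zero]; exact this)

theorem Z5 {a : GK D} {i : ℕ} (h : ∀ j < i + 6, ff α β j a = 0) :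
    D.E α * a.c1 + D.E β * a.c2 = 0 := by
  have := h 5 (by omega)
  exact D.hφ (by rw [map_zero]; exact this)

theorem ZE [IsDomain Λ] (hp : D.E α ≠ 0 ∨ D.E β ≠ 0) {a : GK D} {i : ℕ}
    (h : ∀ j < i + 4, ff α β j a = 0) : D.E a.b1 = 0 ∧ D.E a.b2 = 0 := by
  have h2 := congrArg D.E (Z2 (i := i + 1) h)
  have h3 := congrArg D.E (Z3 h)
  simp only [map_add, map_mul, map_neg, map_zero, D.hEE, D.E_q, zero_mul, add_zero] at h2 h3
  have hne : D.E α ^ 2 + D.E β ^ 2 ≠ 0 := fun h0 => by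
    have := D.sq_add_sq h0
    tauto
  constructor
  · apply (mul_eq_zero.1 (_ : (D.E α ^ 2 + D.E β ^ 2) * D.E a.b1 = 0)).resolve_left hne
    linear_combination D.E α * h2 - D.E β * h3
  · apply (mul_eq_zero.1 (_ : (D.E α ^ 2 + D.E β ^ 2) * D.E a.b2 = 0)).resolve_left hne
    linear_combination D.E β * h2 + D.E α * h3

theorem det_ne (hp : D.E α ≠ 0 ∨ D.E β ≠ 0) : D.E α * α + D.E β * β ≠ 0 := fun h0 => by
  have h1 := congrArg D.E h0
  simp only [map_add, map_mul, map_zero, D.hEE] at h1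
  have := D.sq_add_sq (a := D.E α) (b := D.E β) (by linear_combination h1)
  tauto

theorem ZH [IsDomain Λ] (hp : D.E α ≠ 0 ∨ D.E β ≠ 0) {a : GK D} {i : ℕ}
    (h : ∀ j < i + 5, ff α β j a = 0) : a ∈ HH D := by
  have h2 := Z2 (i := i + 2) h
  have h3 := Z3 (i := i + 1) h
  have h4 := Z4 h
  have hne := det_ne hp
  refine ⟨Z0 (i := i + 4) h, Z1 (i := i + 3) h, ?_, ?_⟩
  · rw [← sub_eq_zero]
    apply (mul_eq_zero.1 (_ : (D.E α * α + D.E β * β) * (a.b1 - D.q * a.c2) = 0)).resolve_left hne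
    linear_combination D.E α * h2 + D.E α * D.q * h4 - β * h3
  · rw [← sub_eq_zero]
    apply (mul_eq_zero.1
      (_ : (D.E α * α + D.E β * β) * (a.b2 - -(D.q * a.c1)) = 0)).resolve_left hne
    linear_combination D.E β * h2 + D.E β * D.q * h4 + α * h3

theorem exists_convex [IsDomain Λ] (hp : D.E α ≠ 0 ∨ D.E β ≠ 0) :
    ∃ K : Subgroup (GK D), (∀ a, a ∈ K ↔ ∀ j < 5, ff α β j a = 0) ∧ RelConvex K := by
  refine lex (ff α β) 6 ?_ ?_ ?_ 5
  · intro i a b ha hb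
    rcases i with _ | _ | _ | _ | _ | _ | i
    · simp [ff]
    · simp only [ff, mul_μ, Z0 ha, Z0 hb, Data.σ_zero, map_one, one_mul, map_add]; ring
    · simp only [ff, ← map_add]
      congr 1
      simp only [mul_b1, mul_b2, Z0 ha, Data.σ_zero]; ring
    · simp only [ff, ← map_add]
      congr 1
      simp only [mul_b1, mul_b2, mul_c1, mul_c2, Z0 ha, Z1 ha, Data.σ_zero]; ring
    · simp only [ff, ← map_add]
      congr 1
      simp only [mul_c1, mul_c2, Z0 ha, Z1 ha, Data.σ_zero]; ring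
    · simp only [ff, ← map_add]
      congr 1
      simp only [mul_c1, mul_c2, Z0 ha, Z1 ha, Data.σ_zero]; ring
    · simp [ff]
  · intro i a x ha
    rcases i with _ | _ | _ | _ | _ | _ | i
    · exact ⟨1, one_pos, by simp [ff]⟩
    · refine ⟨_, D.ψσ_pos x.k, ?_⟩
      simp only [ff]
      rw [conj_μ x a (Z0 ha), map_mul]
    · refine ⟨_, D.φσ_pos x.k, ?_⟩
      rw [conj_eq x a (Z0 ha) (Z1 ha)]
      simp only [ff, ← map_mul]
      congr 1
      ring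
    · refine ⟨_, D.φσ_pos x.k, ?_⟩
      rw [conj_eq x a (Z0 ha) (Z1 ha)]
      have h2 := congrArg D.E (Z2 ha)
      simp only [map_add, map_mul, map_zero] at h2
      simp only [ff, ← map_mul]
      congr 1
      linear_combination D.q * x.μ * h2
    · refine ⟨_, D.φσ_pos x.k, ?_⟩
      rw [conj_eq x a (Z0 ha) (Z1 ha), (ZE hp ha).1, (ZE hp ha).2]
      simp only [ff, ← map_mul]
      congr 1
      ring
    · refine ⟨_, D.φσ_pos x.k, ?_⟩
      rw [conj_eq x a (Z0 ha) (Z1 ha), (ZE (i := 1) hp ha).1, (ZE (i := 1) hp ha).2]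
      simp only [ff, ← map_mul]
      congr 1
      ring
    · exact ⟨1, one_pos, by simp [ff]⟩
  · intro a ha
    obtain ⟨h0, h1, h2, h3⟩ := ZH (i := 1) hp ha
    have h4 := Z4 (i := 1) ha
    have h5 := Z5 (i := 0) ha
    have hne := det_ne hp
    have e1 : a.c1 = 0 := by
      apply (mul_eq_zero.1 (_ : (D.E α * α + D.E β * β) * a.c1 = 0)).resolve_left hne
      linear_combination α * h5 + D.E β * h4
    have e2 : a.c2 = 0 := by
      apply (mul_eq_zero.1 (_ : (D.E α * α + D.E β * β) * a.c2 = 0)).resolve_left hne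
      linear_combination β * h5 - D.E α * h4
    ext <;> simp [h0, h1, h2, h3, e1, e2]

end

theorem mem_convex [IsDomain Λ] (h : GK D) (hh : h ∈ HH D) :
    ∃ K : Subgroup (GK D), RelConvex K ∧ K ≤ HH D ∧ h ∈ K := by
  obtain ⟨h0, h1, h2, h3⟩ := hh
  obtain ⟨κ, α, β, e1, e2, hp⟩ := D.fac2 h.c1 h.c2
  obtain ⟨K, hK, hc⟩ := exists_convex (D := D) hp
  refine ⟨K, hc, fun a ha => ZH (i := 0) hp ((hK a).1 ha), (hK h).2 ?_⟩
  intro j hj
  rcases j with _ | _ | _ | _ | _ | j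
  · simp [ff, h0]
  · simp [ff, h1]
  · simp only [ff]
    rw [← map_zero D.φ, h2, h3, e1, e2]
    congr 1
    ring
  · simp only [ff]
    rw [← map_zero D.φ, h2, h3]
    congr 1
    ring
  · simp only [ff]
    rw [← map_zero D.φ, e1, e2]
    congr 1
    ring
  · omega

end Pool.Agent.H162Z.Kok
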