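import Pool.Agent.H162Z.KokDefs

set_option autoImplicit false

namespace Pool.Agent.H162Z.Kok

variable {G : Type} [Group G]

theorem relConvex_of_cone (P : G → Prop) (h1 : P 1) (hmul : ∀ a b, P a → P b → P (a * b))
    (hanti : ∀ a, P a → P a⁻¹ → a = 1) (hconj : ∀ a x, P a → P (x⁻¹ * a * x))
    (htot : ∀ a, P a ∨ P a⁻¹) (K : Subgroup G)
    (hK : ∀ g k, k ∈ K → P g → P (g⁻¹ * k) → g ∈ K) : RelConvex K := by
  classical
  let o : LinearOrder G :=
    { le := fun a b => P (a⁻¹ * b)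
      le_refl := fun a => by simpa using h1
      le_trans := fun a b c hab hbc => by simpa [mul_assoc] using hmul _ _ hab hbc
      le_antisymm := fun a b hab hba => by
        have := hanti _ hab (by simpa using hba)
        exact inv_mul_eq_one.1 this
      le_total := fun a b => by simpa using htot (a⁻¹ * b)
      toDecidableLE := fun _ _ => Classical.propDecidable _ }
  refine ⟨o, ?_, ?_⟩
  · intro a b x y hab
    have := hconj _ y hab
    show P _
    convert this using 1
    group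
  · intro k₁ hk₁ k₂ hk₂ g hg1 hg2
    have h3 := hK (k₁⁻¹ * g) (k₁⁻¹ * k₂) (K.mul_mem (K.inv_mem hk₁) hk₂) hg1 (by
      have : P (g⁻¹ * k₂) := hg2
      convert this using 1
      group)
    simpa using K.mul_mem hk₁ h3

/-- Lexicographic orders given by a finite sequence of real valued functions. -/
theorem lex (f : ℕ → G → ℝ) (n : ℕ)
    (hadd : ∀ i a b, (∀ j < i, f j a = 0) → (∀ j < i, f j b = 0) → f i (a * b) = f i a + f i b)
    (hconj : ∀ i a x, (∀ j < i, f j a = 0) → ∃ c : ℝ, 0 < c ∧ f i (x * a * x⁻¹) = c * f i a)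
    (hn : ∀ a, (∀ j < n, f j a = 0) → a = 1) (m : ℕ) :
    ∃ K : Subgroup G, (∀ a, a ∈ K ↔ ∀ j < m, f j a = 0) ∧ RelConvex K := by
  classical
  have Z1 : ∀ i, f i 1 = 0 := by
    intro i
    induction i using Nat.strong_induction_on with
    | _ i ih =>
      have := hadd i 1 1 ih ih
      rw [mul_one] at this
      linarith
  have Zmul : ∀ i a b, (∀ j < i, f j a = 0) → (∀ j < i, f j b = 0) → ∀ j < i, f j (a * b) = 0 := by
    intro i a b ha hb j hj
    rw [hadd j a b (fun l hl => ha l (hl.trans hj)) (fun l hl => hb l (hl.trans hj)), ha j hj,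
      hb j hj, add_zero]
  have Zinv : ∀ i a, (∀ j < i, f j a = 0) → f i a⁻¹ = -f i a := by
    intro i
    induction i using Nat.strong_induction_on with
    | _ i ih =>
      intro a ha
      have h1 : ∀ j < i, f j a⁻¹ = 0 := fun j hj => by
        rw [ih j hj a (fun l hl => ha l (hl.trans hj)), ha j hj, neg_zero]
      have := hadd i a a⁻¹ ha h1
      rw [mul_inv_cancel, Z1] at this
      linarith
  have Zinv' : ∀ i a, (∀ j < i, f j a = 0) → ∀ j < i, f j a⁻¹ = 0 := fun i a ha j hj => by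
    rw [Zinv j a (fun l hl => ha l (hl.trans hj)), ha j hj, neg_zero]
  have Zconj : ∀ i a x, (∀ j < i, f j a = 0) → ∀ j < i, f j (x * a * x⁻¹) = 0 := by
    intro i a x ha j hj
    obtain ⟨c, -, hc⟩ := hconj j a x (fun l hl => ha l (hl.trans hj))
    rw [hc, ha j hj, mul_zero]
  let K : Subgroup G :=
    { carrier := {a | ∀ j < m, f j a = 0}
      one_mem' := fun j _ => Z1 j
      mul_mem' := fun ha hb => Zmul m _ _ ha hb
      inv_mem' := fun ha => Zinv' m _ ha }
  let P : G → Prop := fun a => a = 1 ∨ ∃ i, (∀ j < i, f j a = 0) ∧ 0 < f i a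
  have Pmul : ∀ a b i, (∀ j < i, f j a = 0) → 0 < f i a → P b →
      ∃ l ≤ i, (∀ j < l, f j (a * b) = 0) ∧ 0 < f l (a * b) := by
    rintro a b i ha ha' (rfl | ⟨l, hb, hb'⟩)
    · exact ⟨i, le_rfl, by simpa using ha, by simpa using ha'⟩
    · rcases lt_trichotomy i l with h | rfl | h
      · have hb2 : ∀ j < i, f j b = 0 := fun j hj => hb j (hj.trans h)
        exact ⟨i, le_rfl, Zmul i a b ha hb2, by rw [hadd i a b ha hb2, hb i h]; linarith⟩
      · exact ⟨i, le_rfl, Zmul i a b ha hb, by rw [hadd i a b ha hb]; linarith⟩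
      · have ha2 : ∀ j < l, f j a = 0 := fun j hj => ha j (hj.trans h)
        exact ⟨l, h.le, Zmul l a b ha2 hb, by rw [hadd l a b ha2 hb, ha l h]; linarith⟩
  refine ⟨K, fun a => Iff.rfl, relConvex_of_cone P (Or.inl rfl) ?_ ?_ ?_ ?_ K ?_⟩
  · rintro a b (rfl | ⟨i, ha, ha'⟩) hb
    · simpa using hb
    · obtain ⟨l, -, h⟩ := Pmul a b i ha ha' hb
      exact Or.inr ⟨l, h⟩
  · rintro a (rfl | ⟨i, ha, ha'⟩) hb
    · rfl
    · obtain ⟨l, -, -, h⟩ := Pmul a a⁻¹ i ha ha' hb
      rw [mul_inv_cancel, Z1] at h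
      exact absurd h (lt_irrefl _)
  · rintro a x (rfl | ⟨i, ha, ha'⟩)
    · exact Or.inl (by simp)
    · obtain ⟨c, hc, e⟩ := hconj i a x⁻¹ ha
      have h2 := Zconj i a x⁻¹ ha
      rw [inv_inv] at e h2
      exact Or.inr ⟨i, h2, by rw [e]; positivity⟩
  · intro a
    by_cases h : ∃ i, f i a ≠ 0
    · have h1 := Nat.find_spec h
      have h2 : ∀ j < Nat.find h, f j a = 0 := fun j hj => by simpa using Nat.find_min h hj
      rcases lt_or_gt_of_ne h1 with h3 | h3
      · exact Or.inr (Or.inr ⟨_, Zinv' _ a h2, by rw [Zinv _ a h2]; linarith⟩)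
      · exact Or.inl (Or.inr ⟨_, h2, h3⟩)
    · push Not at h
      exact Or.inl (Or.inl (hn a (fun j _ => h j)))
  · rintro g k hk (rfl | ⟨i, hg, hg'⟩) h2
    · exact K.one_mem
    · obtain ⟨l, hl, -, h⟩ := Pmul g (g⁻¹ * k) i hg hg' h2
      rw [mul_inv_cancel_left] at h
      intro j hj
      refine hg j ?_
      by_contra hc
      have := hk l (by omega)
      linarith

end Pool.Agent.H162Z.Kok
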