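import Pool.Agent.H162Z.KokGroup

set_option autoImplicit false

namespace Pool.Agent.H162Z.Kok

open Polynomial

/-- Polynomials not vanishing at `-1`. -/
def MM : Submonoid ℚ[X] where
  carrier := {f | f.eval (-1) ≠ 0}
  one_mem' := by simp
  mul_mem' := by
    intro f g h1 h3
    show eval (-1) (f * g) ≠ 0
    rw [eval_mul]; exact mul_ne_zero h1 h3

/-- The local ring. -/
abbrev LL : Type := Localization MM

theorem MM_ne_zero (m : MM) : (m : ℚ[X]) ≠ 0 := by
  intro h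
  have := m.2
  rw [h] at this
  exact this (by simp)

instance : IsDomain LL := IsLocalization.isDomain_localization (by
  intro f hf
  exact mem_nonZeroDivisors_of_ne_zero (MM_ne_zero ⟨f, hf⟩))

theorem isUnit_MM {f : ℚ[X]} (h1 : f.eval (-1) ≠ 0) :
    IsUnit (algebraMap ℚ[X] LL f) := IsLocalization.map_units LL (⟨f, h1⟩ : MM)

noncomputable def evL : LL →+* ℚ :=
  IsLocalization.lift (M := MM) (g := evalRingHom (-1)) (fun y => isUnit_iff_ne_zero.2 y.2)

theorem evL_alg (f : ℚ[X]) : evL (algebraMap ℚ[X] LL f) = f.eval (-1) := by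
  rw [evL, IsLocalization.lift_eq]; rfl

noncomputable def EL : LL →+* LL := ((algebraMap ℚ[X] LL).comp C).comp evL

theorem EL_apply (r : LL) : EL r = algebraMap ℚ[X] LL (C (evL r)) := rfl

theorem exists_emb {τ : ℝ} (hτ : Transcendental ℚ τ) :
    ∃ φ : LL →+* ℝ, Function.Injective φ ∧ φ (algebraMap ℚ[X] LL X) = τ := by
  have hinj := transcendental_iff_injective.1 hτ
  have hne : ∀ y : MM, ((aeval τ : ℚ[X] →ₐ[ℚ] ℝ) : ℚ[X] →+* ℝ) y ≠ 0 := fun y h =>
    MM_ne_zero y (hinj (by rw [map_zero]; exact h))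
  let φ : LL →+* ℝ := IsLocalization.lift (M := MM)
    (g := ((aeval τ : ℚ[X] →ₐ[ℚ] ℝ) : ℚ[X] →+* ℝ)) (fun y => isUnit_iff_ne_zero.2 (hne y))
  have hφ : ∀ f, φ (algebraMap ℚ[X] LL f) = aeval τ f := fun f => by
    simp only [φ]
    rw [IsLocalization.lift_eq]; rfl
  refine ⟨φ, ?_, by rw [hφ, aeval_X]⟩
  rw [injective_iff_map_eq_zero]
  intro r hr
  obtain ⟨⟨f, m⟩, e⟩ := IsLocalization.surj MM r
  simp only at e
  have e1 := congrArg φ e
  rw [map_mul, hr, zero_mul, hφ] at e1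
  have hf : f = 0 := hinj (by rw [map_zero]; exact e1.symm)
  rw [hf, map_zero] at e
  exact (mul_eq_zero.1 e).resolve_right (isUnit_MM m.2).ne_zero

theorem exists_trans : ∃ τ : ℝ, 0 < τ ∧ Transcendental ℚ τ ∧ Transcendental ℚ (-τ) := by
  have h1 : Transcendental ℚ (liouvilleNumber (2 : ℕ)) := fun h =>
    transcendental_liouvilleNumber (m := 2) le_rfl ((IsFractionRing.isAlgebraic_iff ℤ ℚ ℝ).2 h)
  have h2 : Transcendental ℚ (-liouvilleNumber (2 : ℕ)) := fun h => h1 (by simpa using h.neg)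
  rcases lt_trichotomy (liouvilleNumber (2 : ℕ)) 0 with h | h | h
  · exact ⟨_, neg_pos.2 h, h2, by simpa using h1⟩
  · exact absurd (h ▸ isAlgebraic_zero) h1
  · exact ⟨_, h, h1, h2⟩

theorem exists_data : Nonempty (Data LL) := by
  obtain ⟨τ, h0, h1, h2⟩ := exists_trans
  obtain ⟨φ, hφ, hφX⟩ := exists_emb h1
  obtain ⟨ψ, hψ, hψX⟩ := exists_emb h2
  refine ⟨⟨(isUnit_MM (f := X) (by simp)).unit, EL, φ, ψ, ?_, ?_, hφ, hψ, ?_, ?_, ?_⟩⟩
  · rw [IsUnit.unit_spec, EL_apply, evL_alg, eval_X]; simp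
  · intro r
    rw [EL_apply r, EL_apply, evL_alg, eval_C]
  · rw [IsUnit.unit_spec, hφX]; exact h0
  · rw [IsUnit.unit_spec, hψX]; linarith
  · intro r hr
    obtain ⟨⟨f, m⟩, e⟩ := IsLocalization.surj MM r
    simp only at e
    have hm := isUnit_MM m.2
    have hf0 : f ≠ 0 := by
      rintro rfl
      rw [map_zero] at e
      exact mul_ne_zero hr hm.ne_zero e
    obtain ⟨g, hg, hnd⟩ := exists_eq_pow_rootMultiplicity_mul_and_not_dvd f hf0 (-1)
    have hg2 : g.eval (-1) ≠ 0 := fun h => hnd (dvd_iff_isRoot.2 h)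
    obtain ⟨w, hw⟩ := hm.exists_right_inv
    refine ⟨rootMultiplicity (-1) f, algebraMap ℚ[X] LL g * w, ?_, ?_⟩
    · have e2 : algebraMap ℚ[X] LL (X - C (-1)) = 1 + algebraMap ℚ[X] LL X := by
        simp [add_comm]
      rw [IsUnit.unit_spec, ← e2, ← map_pow, ← mul_assoc, ← map_mul, ← hg, ← e, mul_assoc, hw,
        mul_one]
    · exact (((isUnit_MM hg2).mul (IsUnit.of_mul_eq_one_right _ hw)).map EL).ne_zero

theorem main : ∃ (G : Type) (_ : Group G) (H : Subgroup G), H.Normal ∧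
    (∀ h ∈ H, ∃ K : Subgroup G, RelConvex K ∧ K ≤ H ∧ h ∈ K) ∧ ¬ RelConvex H := by
  obtain ⟨D⟩ := exists_data
  exact ⟨GK D, inferInstance, HH D, HH_normal, mem_convex, HH_not_relConvex⟩

end Pool.Agent.H162Z.Kok
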