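import Mathlib

set_option autoImplicit false

namespace Pool.Agent.H162Z.Visc

open Set

/-- A continuous viscosity supersolution of `u_t + G(u) = 0`, `G y = √y - √(-y)`, which is positive at
`(1, x1)` is at least `1/16` at `(1/2, x1)`. -/
theorem key {E : Type} [NormedAddCommGroup E] [InnerProductSpace ℝ E] [ProperSpace E]
    (U : ℝ → E → ℝ)
    (hU : ContinuousOn (fun q : ℝ × E => U q.1 q.2) (Icc (0:ℝ) 1 ×ˢ (univ : Set E)))
    (hsup : ∀ φ : ℝ → E → ℝ, ContDiff ℝ ((⊤ : ℕ∞) : WithTop ℕ∞) (fun q : ℝ × E => φ q.1 q.2) →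
      ∀ t0 ∈ Ioo (0:ℝ) 1, ∀ x0 : E,
        IsLocalMin (fun q : ℝ × E => U q.1 q.2 - φ q.1 q.2) (t0, x0) →
        deriv (fun s => φ s x0) t0 + (Real.sqrt (U t0 x0) - Real.sqrt (-(U t0 x0))) ≤ 0)
    (x1 : E) (hx1 : 0 < U 1 x1) : (1/16 : ℝ) ≤ U (1/2) x1 := by
  by_contra hlt
  push Not at hlt
  set m := U 1 x1 with hm
  let w : ℝ × E → ℝ := fun q => U q.1 q.2 - (1 - q.1) ^ 2 / 4
  have hw : ContinuousOn w (Icc (0:ℝ) 1 ×ˢ (univ : Set E)) :=
    hU.sub (by fun_prop)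
  have hw1 : ContinuousOn (fun t : ℝ => w (t, x1)) (Icc (0:ℝ) 1) :=
    hw.comp (by fun_prop) (fun t ht => ⟨ht, mem_univ _⟩)
  -- the last time at which `w ≤ m / 2`
  have hScl : IsClosed (Icc (1/2 : ℝ) 1 ∩ (fun t : ℝ => w (t, x1)) ⁻¹' Iic (m / 2)) :=
    (hw1.mono (Icc_subset_Icc (by norm_num) le_rfl)).preimage_isClosed_of_isClosed isClosed_Icc
      isClosed_Iic
  have hScp : IsCompact (Icc (1/2 : ℝ) 1 ∩ (fun t : ℝ => w (t, x1)) ⁻¹' Iic (m / 2)) :=
    isCompact_Icc.of_isClosed_subset hScl inter_subset_left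
  have hSne : (Icc (1/2 : ℝ) 1 ∩ (fun t : ℝ => w (t, x1)) ⁻¹' Iic (m / 2)).Nonempty := by
    refine ⟨1/2, ⟨le_rfl, by norm_num⟩, ?_⟩
    simp only [mem_preimage, mem_Iic, w]
    linarith
  obtain ⟨a, ⟨⟨ha1, ha2⟩, ha3⟩, hamax⟩ := hScp.exists_isGreatest hSne
  simp only [mem_preimage, mem_Iic] at ha3
  have hw11 : w (1, x1) = m := by simp [w, hm]
  have halt : a < 1 := by
    rcases ha2.lt_or_eq with h | h
    · exact h
    · rw [h, hw11] at ha3; linarith
  have hgt : ∀ t ∈ Ioc a 1, m / 2 ≤ w (t, x1) := by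
    intro t ht
    by_contra hc
    push Not at hc
    have : t ≤ a := hamax ⟨⟨by linarith [ht.1], ht.2⟩, hc.le⟩
    linarith [ht.1]
  have hge : ∀ t ∈ Icc a 1, m / 2 ≤ w (t, x1) := by
    intro t ht
    rcases ht.1.lt_or_eq with h | h
    · exact hgt t ⟨h, ht.2⟩
    · rw [← h]
      have hcl : a ∈ closure (Ioc a 1) := by
        rw [closure_Ioc halt.ne]; exact ⟨le_rfl, halt.le⟩
      refine ContinuousWithinAt.closure_le hcl continuousWithinAt_const ?_ hgt
      exact (hw1 a ⟨by linarith, ha2⟩).mono (fun t ht => ⟨by linarith [ht.1], ht.2⟩)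
  -- uniform continuity
  have hKc : IsCompact (Icc (0:ℝ) 1 ×ˢ Metric.closedBall x1 1) :=
    isCompact_Icc.prod (isCompact_closedBall x1 1)
  have huc := hKc.uniformContinuousOn_of_continuous
    (hw.mono (prod_mono le_rfl (subset_univ _)))
  rw [Metric.uniformContinuousOn_iff] at huc
  obtain ⟨δ, hδ, hδw⟩ := huc (m / 4) (by linarith)
  set r : ℝ := min (δ / 2) (1 / 4) with hr
  have hr0 : 0 < r := lt_min (by linarith) (by norm_num)
  have hrδ : r < δ := lt_of_le_of_lt (min_le_left _ _) (by linarith)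
  have hr4 : r ≤ 1 / 4 := min_le_right _ _
  have hnear : ∀ t ∈ Icc (0:ℝ) 1, ∀ t' ∈ Icc (0:ℝ) 1, ∀ x ∈ Metric.closedBall x1 r,
      |t - t'| ≤ r → w (t', x1) - m / 4 < w (t, x) := by
    intro t ht t' ht' x hx htt
    have h1 := hδw (t, x) ⟨ht, Metric.closedBall_subset_closedBall (by linarith) hx⟩
      (t', x1) ⟨ht', Metric.mem_closedBall_self (by norm_num)⟩ (by
        rw [Prod.dist_eq]
        refine lt_of_le_of_lt (max_le ?_ ?_) hrδ
        · exact htt
        · exact hx)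
    rw [Real.dist_eq, abs_lt] at h1
    linarith [h1.1]
  have hpos : ∀ t ∈ Icc (a - r) 1, ∀ x ∈ Metric.closedBall x1 r, 0 < w (t, x) := by
    intro t ht x hx
    have h1 := hnear t ⟨by linarith [ht.1], ht.2⟩ (max t a)
      ⟨by linarith [le_max_right t a], max_le ht.2 ha2⟩ x hx (by
        rcases le_total t a with h | h
        · rw [max_eq_right h, abs_le]; constructor <;> linarith [ht.1]
        · rw [max_eq_left h]; simp [hr0.le])
    have h2 := hge (max t a) ⟨le_max_right _ _, max_le ht.2 ha2⟩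
    linarith
  have htop : ∀ x ∈ Metric.closedBall x1 r, 3 * m / 4 < w (1, x) := by
    intro x hx
    have h1 := hnear 1 ⟨by norm_num, le_rfl⟩ 1 ⟨by norm_num, le_rfl⟩ x hx (by simp [hr0.le])
    rw [hw11] at h1
    linarith
  let φ : ℝ → E → ℝ := fun t x =>
    (1 - t) ^ 2 / 4 - m / 8 * Real.exp (5 / r * (a - t)) - m / r ^ 2 * ‖x - x1‖ ^ 2
  have hφ : ContDiff ℝ ((⊤ : ℕ∞) : WithTop ℕ∞) (fun q : ℝ × E => φ q.1 q.2) := by
    have h1 : ContDiff ℝ ((⊤ : ℕ∞) : WithTop ℕ∞) (fun q : ℝ × E => ‖q.2 - x1‖ ^ 2) :=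
      ContDiff.norm_sq ℝ (contDiff_snd.sub contDiff_const)
    have h2 : ContDiff ℝ ((⊤ : ℕ∞) : WithTop ℕ∞)
        (fun q : ℝ × E => (1 - q.1) ^ 2 / 4 - m / 8 * Real.exp (5 / r * (a - q.1))) := by
      fun_prop
    exact h2.sub (contDiff_const.mul h1)
  have hK2 : IsCompact (Icc (a - r) 1 ×ˢ Metric.closedBall x1 r) :=
    isCompact_Icc.prod (isCompact_closedBall x1 r)
  have hF : ContinuousOn (fun q : ℝ × E => U q.1 q.2 - φ q.1 q.2)
      (Icc (a - r) 1 ×ˢ Metric.closedBall x1 r) :=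
    (hU.mono (prod_mono (Icc_subset_Icc (by linarith) le_rfl) (subset_univ _))).sub
      hφ.continuous.continuousOn
  have hax : ((a, x1) : ℝ × E) ∈ Icc (a - r) 1 ×ˢ Metric.closedBall x1 r :=
    ⟨⟨by simp [hr0.le], ha2⟩, Metric.mem_closedBall_self hr0.le⟩
  obtain ⟨⟨t0, x0⟩, ⟨ht0, hx0⟩, hmin⟩ := hK2.exists_isMinOn ⟨_, hax⟩ hF
  have hFeq : ∀ t x, U t x - φ t x =
      w (t, x) + m / 8 * Real.exp (5 / r * (a - t)) + m / r ^ 2 * ‖x - x1‖ ^ 2 := by
    intro t x
    simp only [w, φ]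
    ring
  have hle : w (t0, x0) + m / 8 * Real.exp (5 / r * (a - t0)) + m / r ^ 2 * ‖x0 - x1‖ ^ 2
      ≤ 5 * m / 8 := by
    have h1 := hmin hax
    simp only [mem_ofPred_eq, hFeq] at h1
    simp only [sub_self, mul_zero, Real.exp_zero, norm_zero] at h1
    nlinarith
  have hexp := Real.exp_pos (5 / r * (a - t0))
  have hw0 := hpos t0 ht0 x0 hx0
  have hq : 0 ≤ m / r ^ 2 * ‖x0 - x1‖ ^ 2 := by positivity
  have he : 0 ≤ m / 8 * Real.exp (5 / r * (a - t0)) := by positivity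
  have ht1 : t0 < 1 := by
    rcases ht0.2.lt_or_eq with h | h
    · exact h
    · simp only at h
      have := htop x0 hx0
      rw [h] at hle he
      linarith
  have ht2 : a - r < t0 := by
    rcases ht0.1.lt_or_eq with h | h
    · exact h
    · simp only at h
      have h5 : 5 / r * (a - t0) = 5 := by
        rw [← h]; field_simp; ring
      rw [h5] at hle
      have := Real.add_one_le_exp (5 : ℝ)
      nlinarith
  have hx2 : x0 ∈ Metric.ball x1 r := by
    have hx0' : dist x0 x1 ≤ r := hx0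
    rcases hx0'.lt_or_eq with h | h
    · exact h
    · rw [dist_eq_norm] at h
      rw [h] at hle
      have : m / r ^ 2 * r ^ 2 = m := by field_simp
      linarith
  have hloc : IsLocalMin (fun q : ℝ × E => U q.1 q.2 - φ q.1 q.2) (t0, x0) := by
    refine hmin.isLocalMin ?_
    refine prod_mem_nhds (Icc_mem_nhds ht2 ht1) ?_
    exact Filter.mem_of_superset (Metric.isOpen_ball.mem_nhds hx2) Metric.ball_subset_closedBall
  have hmain := hsup φ hφ t0 ⟨by linarith, ht1⟩ x0 hloc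
  have hd : HasDerivAt (fun s => φ s x0)
      (-(1 - t0) / 2 + m / 8 * (5 / r) * Real.exp (5 / r * (a - t0))) t0 := by
    have h1 : HasDerivAt (fun s : ℝ => 1 - s) (-1) t0 := by
      simpa using (hasDerivAt_id t0).const_sub 1
    have h2 : HasDerivAt (fun s : ℝ => 5 / r * (a - s)) (5 / r * (-1)) t0 := by
      have : HasDerivAt (fun s : ℝ => a - s) (-1) t0 := by
        simpa using (hasDerivAt_id t0).const_sub a
      exact this.const_mul _
    have h3 := (((h1.pow 2).div_const 4).sub (h2.exp.const_mul (m / 8))).sub_const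
      (m / r ^ 2 * ‖x0 - x1‖ ^ 2)
    refine HasDerivAt.congr_deriv h3 ?_
    simp
    ring
  rw [hd.deriv] at hmain
  have hU0 : (1 - t0) ^ 2 / 4 < U t0 x0 := by
    simp only [w] at hw0
    linarith
  have hs1 : Real.sqrt (-(U t0 x0)) = 0 := Real.sqrt_eq_zero_of_nonpos (by nlinarith)
  have hs2 : (1 - t0) / 2 < Real.sqrt (U t0 x0) := Real.lt_sqrt_of_sq_lt (by nlinarith)
  have hp : 0 ≤ m / 8 * (5 / r) * Real.exp (5 / r * (a - t0)) := by positivity
  linarith

end Pool.Agent.H162Z.Visc
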