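import Mathlib

set_option autoImplicit false

namespace Pool.Agent.H162Z.Wa

/-- Positive cones of weakly abelian partial orders. -/
structure WA {G : Type} [Group G] (P : Set G) : Prop where
  one : (1 : G) ∈ P
  mul : ∀ a ∈ P, ∀ b ∈ P, a * b ∈ P
  anti : ∀ a ∈ P, a⁻¹ ∈ P → a = 1
  conj : ∀ a ∈ P, ∀ x : G, x⁻¹ * a * x ∈ P
  wa : ∀ a ∈ P, ∀ x : G, (x⁻¹ * a * x)⁻¹ * a ^ 2 ∈ P

variable {G : Type} [Group G]

theorem WA.pow {P : Set G} (hP : WA P) {a : G} (ha : a ∈ P) (n : ℕ) : a ^ n ∈ P := by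
  induction n with
  | zero => simpa using hP.one
  | succ n ih => rw [pow_succ]; exact hP.mul _ ih _ ha

theorem WA.conj' {P : Set G} (hP : WA P) {a : G} (ha : a ∈ P) (x : G) : x * a * x⁻¹ ∈ P := by
  simpa using hP.conj a ha x⁻¹

theorem WA.wa' {P : Set G} (hP : WA P) {a : G} (ha : a ∈ P) (x : G) :
    (x * a * x⁻¹)⁻¹ * a ^ 2 ∈ P := by
  simpa using hP.wa a ha x⁻¹

theorem WA.comm_bound {P : Set G} (hP : WA P) {a : G} (ha : a ∈ P) (y z : G) :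
    (a * y * a⁻¹ * y⁻¹) * (a * z * a⁻¹ * z⁻¹) * a ^ 4 ∈ P := by
  have h1 := hP.wa' ha y
  have h2 := hP.mul _ ha _ (hP.wa' ha z)
  have h3 := hP.conj _ h2 (y * a * y⁻¹)
  have h4 := hP.mul _ ha _ (hP.mul _ h3 _ h1)
  convert h4 using 1
  group

theorem exists_maximal {P : Set G} (hP : WA P) :
    ∃ Q : Set G, P ⊆ Q ∧ WA Q ∧ ∀ R : Set G, WA R → Q ⊆ R → R ⊆ Q := by
  obtain ⟨Q, hPQ, hQ⟩ := zorn_subset_nonempty {Q : Set G | WA Q} (by
    intro c hc hch hne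
    obtain ⟨A, hA⟩ := hne
    refine ⟨⋃₀ c, ⟨⟨A, hA, (hc hA).one⟩, ?_, ?_, ?_, ?_⟩, fun s hs => Set.subset_sUnion_of_mem hs⟩
    · rintro a ⟨B, hB, ha⟩ b ⟨C, hC, hb⟩
      rcases hch.total hB hC with h | h
      · exact ⟨C, hC, (hc hC).mul _ (h ha) _ hb⟩
      · exact ⟨B, hB, (hc hB).mul _ ha _ (h hb)⟩
    · rintro a ⟨B, hB, ha⟩ ⟨C, hC, hb⟩
      rcases hch.total hB hC with h | h
      · exact (hc hC).anti _ (h ha) hb
      · exact (hc hB).anti _ ha (h hb)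
    · rintro a ⟨B, hB, ha⟩ x
      exact ⟨B, hB, (hc hB).conj _ ha x⟩
    · rintro a ⟨B, hB, ha⟩ x
      exact ⟨B, hB, (hc hB).wa _ ha x⟩) P hP
  exact ⟨Q, hPQ, hQ.prop, fun R hR hQR => hQ.le_of_ge hR hQR⟩

/-- If `g` is outside a maximal weakly abelian cone and `π g` is central, then some positive power of
`π g` is inverse to the image of an element of the cone. -/
theorem ext_lemma {P : Set G} (hP : WA P) (hmax : ∀ R : Set G, WA R → P ⊆ R → R ⊆ P)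
    {H : Type} [Group H] (π : G →* H) (g : G) (hc : ∀ y, Commute (π g) (π y)) (hg : g ∉ P) :
    ∃ n : ℕ, 1 ≤ n ∧ ∃ p ∈ P, π p * π g ^ n = 1 := by
  by_contra hcon
  push Not at hcon
  let R : G → ℕ → Prop := fun h n => ∃ p ∈ P, π h = π p * π g ^ n
  have R0 : ∀ h ∈ P, R h 0 := fun h hh => ⟨h, hh, by simp⟩
  have Rmul : ∀ h n h' m, R h n → R h' m → R (h * h') (n + m) := by
    rintro h n h' m ⟨p, hp, e⟩ ⟨p', hp', e'⟩
    refine ⟨p * p', hP.mul _ hp _ hp', ?_⟩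
    have := ((hc p').pow_left n).eq
    rw [map_mul, map_mul, e, e', pow_add, mul_assoc, ← mul_assoc (π g ^ n), this]
    simp only [mul_assoc]
  have Rconj : ∀ h n x, R h n → R (x⁻¹ * h * x) n := by
    rintro h n x ⟨p, hp, e⟩
    refine ⟨x⁻¹ * p * x, hP.conj _ hp x, ?_⟩
    have := ((hc x).pow_left n).eq
    simp only [map_mul, e, mul_assoc, this]
  have Rwa : ∀ h n x, R h n → R ((x⁻¹ * h * x)⁻¹ * h ^ 2) n := by
    rintro h n x ⟨p, hp, e⟩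
    refine ⟨(x⁻¹ * p * x)⁻¹ * p ^ 2, hP.wa _ hp x, ?_⟩
    have h1 := ((hc x).pow_left n).eq
    have h2 := ((hc p).pow_left n).eq
    have h3 : ∀ y, (π g ^ n)⁻¹ * (π y * π g ^ n) = π y := by
      intro y
      rw [← ((hc y).pow_left n).eq, inv_mul_cancel_left]
    have h4 := h3 (p⁻¹ * x * p)
    simp only [map_mul, map_inv, map_pow, e, pow_two, mul_inv_rev, inv_inv, mul_assoc] at h4 ⊢
    congr 1
    calc (π g ^ n)⁻¹ * ((π p)⁻¹ * (π x * (π p * (π g ^ n * (π p * π g ^ n)))))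
        = ((π g ^ n)⁻¹ * ((π p)⁻¹ * (π x * (π p * π g ^ n)))) * (π p * π g ^ n) := by
          simp only [mul_assoc]
      _ = _ := by rw [h4]; simp only [mul_assoc]
  have R1 : ∀ n, 1 ≤ n → ¬ R 1 n := by
    rintro n hn ⟨p, hp, e⟩
    exact hcon n hn p hp (by rw [← e, map_one])
  let Q : Set G := {h | h ∈ P ∨ ∃ n, 1 ≤ n ∧ R h n}
  have hQ : WA Q := by
    refine ⟨Or.inl hP.one, ?_, ?_, ?_, ?_⟩
    · rintro a (ha | ⟨n, hn, ha⟩) b (hb | ⟨m, hm, hb⟩)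
      · exact Or.inl (hP.mul _ ha _ hb)
      · exact Or.inr ⟨0 + m, by omega, Rmul _ _ _ _ (R0 _ ha) hb⟩
      · exact Or.inr ⟨n + 0, by omega, Rmul _ _ _ _ ha (R0 _ hb)⟩
      · exact Or.inr ⟨n + m, by omega, Rmul _ _ _ _ ha hb⟩
    · rintro a (ha | ⟨n, hn, ha⟩) (hb | ⟨m, hm, hb⟩)
      · exact hP.anti _ ha hb
      · exact absurd (by simpa using Rmul _ _ _ _ (R0 _ ha) hb) (R1 m hm)
      · exact absurd (by simpa using Rmul _ _ _ _ ha (R0 _ hb)) (R1 n hn)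
      · exact absurd (by simpa using Rmul _ _ _ _ ha hb) (R1 (n + m) (by omega))
    · rintro a (ha | ⟨n, hn, ha⟩) x
      · exact Or.inl (hP.conj _ ha x)
      · exact Or.inr ⟨n, hn, Rconj _ _ _ ha⟩
    · rintro a (ha | ⟨n, hn, ha⟩) x
      · exact Or.inl (hP.wa _ ha x)
      · exact Or.inr ⟨n, hn, Rwa _ _ _ ha⟩
  exact hg (hmax Q hQ (fun a ha => Or.inl ha) (Or.inr ⟨1, le_rfl, 1, hP.one, by simp⟩))

open LaurentPolynomial

/-- evaluation of a Laurent polynomial at `1` -/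
noncomputable def ev1 : ℤ[T;T⁻¹] →+* ℤ := LaurentPolynomial.eval₂ (RingHom.id ℤ) 1

@[simp] theorem ev1_T (n : ℤ) : ev1 (T n) = 1 := by simp [ev1, eval₂_T]

@[simp] theorem ev1_C (a : ℤ) : ev1 (C a) = a := by simp [ev1, eval₂_C]

theorem T_sub_one_dvd (n : ℤ) : (T 1 - 1 : ℤ[T;T⁻¹]) ∣ T n - 1 := by
  induction n using Int.induction_on with
  | zero => simp
  | succ n ih =>
    have : (T ((n : ℤ) + 1) - 1 : ℤ[T;T⁻¹]) = T 1 * (T n - 1) + (T 1 - 1) := by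
      rw [T_add]; ring
    rw [this]
    exact dvd_add (Dvd.dvd.mul_left ih _) dvd_rfl
  | pred n ih =>
    have h1 : (T (-1) * T 1 : ℤ[T;T⁻¹]) = 1 := by rw [← T_add]; simp
    have : (T (-(n : ℤ) - 1) - 1 : ℤ[T;T⁻¹]) = T (-1) * (T (-n) - 1) - T (-1) * (T 1 - 1) := by
      rw [sub_eq_add_neg (-(n : ℤ)), T_add]
      linear_combination h1
    rw [this]
    exact dvd_sub (Dvd.dvd.mul_left ih _) (Dvd.dvd.mul_left dvd_rfl _)

theorem sub_ev1_dvd (r : ℤ[T;T⁻¹]) : (T 1 - 1 : ℤ[T;T⁻¹]) ∣ r - (ev1 r : ℤ) := by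
  induction r using LaurentPolynomial.induction_on' with
  | add p q hp hq =>
    have : p + q - ((ev1 (p + q) : ℤ) : ℤ[T;T⁻¹]) = (p - (ev1 p : ℤ)) + (q - (ev1 q : ℤ)) := by
      rw [map_add]; push_cast; ring
    rw [this]
    exact dvd_add hp hq
  | C_mul_T n a =>
    have : C a * T n - ((ev1 (C a * T n) : ℤ) : ℤ[T;T⁻¹]) = C a * (T n - 1) := by
      rw [map_mul, ev1_T, ev1_C, mul_one, eq_intCast C a]
      ring
    rw [this]
    exact Dvd.dvd.mul_left (T_sub_one_dvd n) _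

/-- The averaging element `1 + T + ... + T^(N-1)`. -/
noncomputable def sig (N : ℕ) : ℤ[T;T⁻¹] := ∑ i ∈ Finset.range N, T i

theorem sig_mul (N : ℕ) : sig N * (T 1 - 1) = T N - 1 := by
  induction N with
  | zero => simp [sig]
  | succ N ih =>
    rw [sig, Finset.sum_range_succ, ← sig, add_mul, ih]
    push_cast
    rw [T_add]
    ring

theorem ev1_sig (N : ℕ) : ev1 (sig N) = N := by
  simp [sig, map_sum]

theorem alg (S : AddSubmonoid ℤ[T;T⁻¹]) (h1 : ∀ i, T i ∈ S) (h2 : ∀ i j, 2 * T i - T j ∈ S)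
    (ρ : ℤ[T;T⁻¹]) (hρ : 1 ≤ ev1 ρ) : ∃ N0 : ℕ, ∀ N ≥ N0, 2 * sig N * ρ ∈ S := by
  have hone : (1 : ℤ[T;T⁻¹]) ∈ S := by simpa using h1 0
  have hnat : ∀ n : ℕ, (n : ℤ[T;T⁻¹]) ∈ S := fun n => by
    simpa using S.nsmul_mem hone n
  have hnm : ∀ (n : ℕ) (x : ℤ[T;T⁻¹]), x ∈ S → (n : ℤ[T;T⁻¹]) * x ∈ S := fun n x hx => by
    simpa using S.nsmul_mem hx n
  have F1 : ∀ r : ℤ[T;T⁻¹], ∃ M : ℕ, ∀ j, (M : ℤ[T;T⁻¹]) + T j * r ∈ S ∧
      (M : ℤ[T;T⁻¹]) - T j * r ∈ S := by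
    intro r
    induction r using LaurentPolynomial.induction_on' with
    | add p q hp hq =>
      obtain ⟨M, hM⟩ := hp
      obtain ⟨M', hM'⟩ := hq
      refine ⟨M + M', fun j => ⟨?_, ?_⟩⟩
      · convert S.add_mem (hM j).1 (hM' j).1 using 1
        push_cast; ring
      · convert S.add_mem (hM j).2 (hM' j).2 using 1
        push_cast; ring
    | C_mul_T n a =>
      have e1 : ∀ (c : ℕ) (j : ℤ), ((2 * c : ℕ) : ℤ[T;T⁻¹]) + T j * ((c : ℤ[T;T⁻¹]) * T n) ∈ S := by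
        intro c j
        convert hnm c _ (S.add_mem (hnat 2) (h1 (j + n))) using 1
        rw [T_add]; push_cast; ring
      have e2 : ∀ (c : ℕ) (j : ℤ), ((2 * c : ℕ) : ℤ[T;T⁻¹]) - T j * ((c : ℤ[T;T⁻¹]) * T n) ∈ S := by
        intro c j
        convert hnm c _ (h2 0 (j + n)) using 1
        rw [T_add, T_zero]; push_cast; ring
      rw [eq_intCast C a]
      obtain ⟨c, rfl | rfl⟩ := Int.eq_nat_or_neg a
      · refine ⟨2 * c, fun j => ⟨?_, ?_⟩⟩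
        · simpa using e1 c j
        · simpa using e2 c j
      · refine ⟨2 * c, fun j => ⟨?_, ?_⟩⟩
        · simpa [sub_eq_add_neg] using e2 c j
        · simpa using e1 c j
  have F2 : ∀ N : ℕ, 2 * sig N - (N : ℤ[T;T⁻¹]) ∈ S := by
    intro N
    induction N with
    | zero => simp [sig]
    | succ N ih =>
      convert S.add_mem ih (h2 N 0) using 1
      rw [sig, Finset.sum_range_succ, ← sig, T_zero]
      push_cast; ring
  obtain ⟨r', hr'⟩ := sub_ev1_dvd ρ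
  obtain ⟨M, hM⟩ := F1 r'
  obtain ⟨n, hn⟩ := Int.eq_ofNat_of_zero_le (le_trans zero_le_one hρ)
  refine ⟨4 * M, fun N hN => ?_⟩
  have hn1 : 1 ≤ n := by omega
  obtain ⟨d, hd⟩ : ∃ d, n * N = 4 * M + d := ⟨n * N - 4 * M, by
    have : N ≤ n * N := Nat.le_mul_of_pos_left N hn1
    omega⟩
  have hd' : ((n : ℤ[T;T⁻¹]) * N) = 4 * M + d := by exact_mod_cast congrArg (Nat.cast : ℕ → ℤ[T;T⁻¹]) hd
  have := S.add_mem (S.add_mem (hnm n _ (F2 N)) (hnat d))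
    (S.add_mem (hnm 2 _ (hM N).1) (hnm 2 _ (hM 0).2))
  convert this using 1
  rw [hn] at hr'
  have hs := sig_mul N
  rw [T_zero]
  push_cast at hr' ⊢
  linear_combination 2 * sig N * hr' + 2 * r' * hs + hd'

end Pool.Agent.H162Z.Wa
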