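import Pool.Agent.H162Z.WaCone

set_option autoImplicit false

namespace Pool.Agent.H162Z.Wa

open LaurentPolynomial

/-- The properties of the semi-local ring `ℚ[s]` localised at `s = 1` and `s = -2` that are used. -/
structure Data (Λ : Type) [CommRing Λ] where
  s : Λˣ
  ε : Λ →+* ℚ
  η : Λ →+* ℚ
  hε : ε s = 1
  hη : η s = -2
  hunit : ∀ r, ε r ≠ 0 → η r ≠ 0 → IsUnit r
  hker : ∀ r, ε r = 0 → ((s : Λ) - 1) ∣ r
  hdiv : ∀ r, ε r ≠ 0 → ∃ i : ℕ, r ∣ ((s : Λ) + 2) ^ i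

variable {Λ : Type} [CommRing Λ]

namespace Data

variable (D : Data Λ)

def σ (k : ℤ) : Λ := ((D.s ^ k : Λˣ) : Λ)

def p : Λ := (D.s : Λ) - 1

theorem σ_add (k l : ℤ) : D.σ (k + l) = D.σ k * D.σ l := by simp [σ, zpow_add]

@[simp] theorem σ_zero : D.σ 0 = 1 := by simp [σ]

theorem σ_one : D.σ 1 = D.s := by simp [σ]

theorem σ_neg_mul (k : ℤ) : D.σ (-k) * D.σ k = 1 := by rw [← σ_add]; simp

theorem map_σ (f : Λ →+* ℚ) (k : ℤ) : f (D.σ k) = (f D.s) ^ k := by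
  have h1 : f (D.σ k) = ((Units.map (f : Λ →* ℚ) (D.s ^ k) : ℚˣ) : ℚ) := rfl
  rw [h1, map_zpow, Units.val_zpow_eq_zpow_val]
  rfl

@[simp] theorem ε_σ (k : ℤ) : D.ε (D.σ k) = 1 := by rw [map_σ, D.hε, one_zpow]

theorem η_σ (k : ℤ) : D.η (D.σ k) = (-2) ^ k := by rw [map_σ, D.hη]

@[simp] theorem ε_p : D.ε D.p = 0 := by simp [p, D.hε]

theorem η_p : D.η D.p = -3 := by simp [p, D.hη]; norm_num

theorem exists_quot (k : ℤ) : ∃ e : Λ, D.σ k - 1 = D.p * e ∧ D.ε e = k := by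
  induction k using Int.induction_on with
  | zero => exact ⟨0, by simp, by simp⟩
  | succ n ih =>
    obtain ⟨e, h1, h2⟩ := ih
    refine ⟨D.σ 1 * e + 1, ?_, by simp [h2]⟩
    rw [σ_add]
    have : D.p = D.σ 1 - 1 := by rw [σ_one, p]
    linear_combination D.σ 1 * h1 - this
  | pred n ih =>
    obtain ⟨e, h1, h2⟩ := ih
    refine ⟨D.σ (-1) * e - D.σ (-1), ?_, by simp [h2]⟩
    rw [sub_eq_add_neg (-(n : ℤ)), σ_add]
    have h3 : D.p = D.σ 1 - 1 := by rw [σ_one, p]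
    have h4 := D.σ_neg_mul 1
    linear_combination D.σ (-1) * h1 + D.σ (-1) * h3 + h4

theorem σ_sub_one_dvd {k : ℤ} (hk : k ≠ 0) (r : Λ) (hr : D.ε r = 0) : (D.σ k - 1) ∣ r := by
  obtain ⟨e, h1, h2⟩ := D.exists_quot k
  have hu : IsUnit e := by
    refine D.hunit e (by rw [h2]; exact_mod_cast hk) ?_
    intro h0
    have h3 := congrArg D.η h1
    rw [map_mul, h0, mul_zero, map_sub, η_σ, map_one, sub_eq_zero] at h3
    have h4 := congrArg abs h3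
    rw [abs_zpow] at h4
    norm_num at h4
    rw [zpow_eq_one_iff_right₀ (by norm_num) (by norm_num)] at h4
    exact hk h4
  rw [h1]
  exact (hu.mul_right_dvd).2 (D.hker r hr)

end Data

/-- The group: the Heisenberg group over `Λ` (with commutator pairing multiplied by `s - 1`) extended
by the automorphism `(u, v, w) ↦ (s u, s v, s ^ 2 w)`. -/
@[ext] structure GG (D : Data Λ) where
  k : ℤ
  u : Λ
  v : Λ
  w : Λ

variable {D : Data Λ}

instance : Mul (GG D) := ⟨fun a b => ⟨a.k + b.k, a.u + D.σ a.k * b.u, a.v + D.σ a.k * b.v,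
  a.w + D.σ a.k ^ 2 * b.w + D.p * D.σ a.k * a.u * b.v⟩⟩

instance : One (GG D) := ⟨⟨0, 0, 0, 0⟩⟩

instance : Inv (GG D) := ⟨fun a => ⟨-a.k, -(D.σ (-a.k) * a.u), -(D.σ (-a.k) * a.v),
  D.σ (-a.k) ^ 2 * (-a.w + D.p * a.u * a.v)⟩⟩

@[simp] theorem mul_k (a b : GG D) : (a * b).k = a.k + b.k := rfl
@[simp] theorem mul_u (a b : GG D) : (a * b).u = a.u + D.σ a.k * b.u := rfl
@[simp] theorem mul_v (a b : GG D) : (a * b).v = a.v + D.σ a.k * b.v := rfl
@[simp] theorem mul_w (a b : GG D) :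
    (a * b).w = a.w + D.σ a.k ^ 2 * b.w + D.p * D.σ a.k * a.u * b.v := rfl
@[simp] theorem one_k : (1 : GG D).k = 0 := rfl
@[simp] theorem one_u : (1 : GG D).u = 0 := rfl
@[simp] theorem one_v : (1 : GG D).v = 0 := rfl
@[simp] theorem one_w : (1 : GG D).w = 0 := rfl
@[simp] theorem inv_k (a : GG D) : (a⁻¹).k = -a.k := rfl
@[simp] theorem inv_u (a : GG D) : (a⁻¹).u = -(D.σ (-a.k) * a.u) := rfl
@[simp] theorem inv_v (a : GG D) : (a⁻¹).v = -(D.σ (-a.k) * a.v) := rfl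
@[simp] theorem inv_w (a : GG D) : (a⁻¹).w = D.σ (-a.k) ^ 2 * (-a.w + D.p * a.u * a.v) := rfl

instance : Group (GG D) := Group.ofLeftAxioms
  (by
    intro a b c
    ext <;> simp only [mul_k, mul_u, mul_v, mul_w, D.σ_add] <;> ring)
  (by
    intro a
    ext <;> simp)
  (by
    intro a
    ext <;> simp only [mul_k, mul_u, mul_v, mul_w, inv_k, inv_u, inv_v, inv_w, one_k, one_u, one_v,
      one_w] <;> ring)

theorem conj_eq (y g : GG D) (hk : g.k = 0) :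
    y * g * y⁻¹ = ⟨0, D.σ y.k * g.u, D.σ y.k * g.v,
      D.σ y.k ^ 2 * g.w + D.p * D.σ y.k * (y.u * g.v - g.u * y.v)⟩ := by
  have h := D.σ_neg_mul y.k
  ext <;> simp only [mul_k, mul_u, mul_v, mul_w, inv_k, inv_u, inv_v, inv_w, hk, add_zero]
  · ring
  · linear_combination (-y.u) * h
  · linear_combination (-y.v) * h
  · linear_combination ((D.σ (-y.k) * D.σ y.k + 1) * (-y.w + D.p * y.u * y.v) -
      D.p * y.v * (y.u + D.σ y.k * g.u)) * h

/-! ### Elements outside the Heisenberg subgroup -/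

/-- The abelianisation map. -/
def π1 (D : Data Λ) : GG D →* Multiplicative (ℤ × ℚ × ℚ × ℚ) where
  toFun a := Multiplicative.ofAdd (a.k, D.ε a.u, D.ε a.v, D.ε a.w)
  map_one' := by simp
  map_mul' a b := by
    rw [← ofAdd_add]
    simp

theorem π1_eq_one {c : GG D} (h : π1 D c = 1) :
    c.k = 0 ∧ D.ε c.u = 0 ∧ D.ε c.v = 0 ∧ D.ε c.w = 0 := by
  have h1 : (c.k, D.ε c.u, D.ε c.v, D.ε c.w) = (0 : ℤ × ℚ × ℚ × ℚ) :=
    Multiplicative.ofAdd.injective h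
  simpa [Prod.ext_iff] using h1

theorem pow_k (a : GG D) (n : ℕ) : (a ^ n).k = n * a.k := by
  induction n with
  | zero => simp
  | succ n ih => rw [pow_succ, mul_k, ih]; push_cast; ring

theorem level_one_bound {P : Set (GG D)} (hP : WA P) {a : GG D} (ha : a ∈ P) (hk : a.k ≠ 0)
    {c : GG D} (hc : π1 D c = 1) : c * a ^ 4 ∈ P := by
  obtain ⟨c0, cu, cv, cw⟩ := π1_eq_one hc
  obtain ⟨u', hu'⟩ := D.σ_sub_one_dvd hk _ cu
  obtain ⟨v', hv'⟩ := D.σ_sub_one_dvd hk _ cv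
  obtain ⟨w', hw'⟩ := D.σ_sub_one_dvd (k := a.k + a.k) (by omega)
    (c.w - (D.p * D.σ a.k * (a.u * v' - u' * a.v) + D.p * u' * v' - D.p * D.σ a.k * u' * v'))
    (by simp [cw])
  have := hP.comm_bound ha (⟨0, u', v', 0⟩ : GG D) (⟨0, 0, 0, w'⟩ : GG D)
  convert this using 2
  rw [conj_eq a _ rfl, conj_eq a _ rfl]
  rw [D.σ_add] at hw'
  ext <;> simp only [mul_k, mul_u, mul_v, mul_w, inv_k, inv_u, inv_v, inv_w, neg_zero, add_zero,
    Data.σ_zero]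
  · exact c0
  · linear_combination hu'
  · linear_combination hv'
  · linear_combination hw'

theorem level_one {P : Set (GG D)} (hP : WA P)
    (hmax : ∀ R : Set (GG D), WA R → P ⊆ R → R ⊆ P) (g : GG D) (hk : g.k ≠ 0) :
    g ∈ P ∨ g⁻¹ ∈ P := by
  by_contra hcon
  push Not at hcon
  obtain ⟨m, hm, b, hb, eb⟩ := ext_lemma hP hmax (π1 D) g (fun y => Commute.all _ _) hcon.1
  obtain ⟨n, hn, a, ha, ea⟩ := ext_lemma hP hmax (π1 D) g⁻¹ (fun y => Commute.all _ _) hcon.2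
  have ea' : π1 D a = π1 D g ^ n := by
    rw [map_inv, inv_pow, mul_inv_eq_one] at ea
    exact ea
  have eb' : π1 D b = (π1 D g ^ m)⁻¹ := eq_inv_of_mul_eq_one_left eb
  have hak : a.k = n * g.k := by
    have h1 : π1 D (a * (g ^ n)⁻¹) = 1 := by rw [map_mul, map_inv, map_pow, ea', mul_inv_cancel]
    have h2 := (π1_eq_one h1).1
    rw [mul_k, inv_k, pow_k] at h2
    linarith
  have hbk : b.k = -(m * g.k) := by
    have h1 : π1 D (b * g ^ m) = 1 := by rw [map_mul, map_pow, eb]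
    have h2 := (π1_eq_one h1).1
    rw [mul_k, pow_k] at h2
    linarith
  have hak0 : a.k ≠ 0 := by
    rw [hak]
    exact mul_ne_zero (by omega) hk
  obtain ⟨m', rfl⟩ : ∃ m', m = m' + 1 := ⟨m - 1, by omega⟩
  have hc : π1 D ((b ^ (4 * n))⁻¹ * (a ^ (4 * (m' + 1)))⁻¹) = 1 := by
    rw [map_mul, map_inv, map_inv, map_pow, map_pow, ea', eb', inv_pow, inv_inv, ← pow_mul,
      ← pow_mul, mul_inv_eq_one]
    congr 1
    ring
  have h1 := hP.mul _ (level_one_bound hP ha hak0 hc) _ (hP.pow ha (4 * m'))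
  have h2 : (b ^ (4 * n))⁻¹ ∈ P := by
    convert h1 using 1
    group
  have h3 := congrArg GG.k (hP.anti _ (hP.pow hb (4 * n)) h2)
  rw [pow_k, hbk, one_k] at h3
  have h4 : ((4 * n : ℕ) : ℤ) ≠ 0 := by omega
  have h5 : ((m' + 1 : ℕ) : ℤ) ≠ 0 := by omega
  exact mul_ne_zero h4 (neg_ne_zero.2 (mul_ne_zero h5 hk)) h3

/-! ### Elements of the Heisenberg subgroup -/

noncomputable def evs (D : Data Λ) : ℤ[T;T⁻¹] →+* Λ :=
  LaurentPolynomial.eval₂ (Int.castRingHom Λ) D.s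

noncomputable def evT (D : Data Λ) : ℤ[T;T⁻¹] →+* Λ :=
  LaurentPolynomial.eval₂ (Int.castRingHom Λ) (D.s ^ 2)

@[simp] theorem evs_T (n : ℤ) : evs D (T n) = D.σ n := by
  rw [evs, eval₂_T]; rfl

@[simp] theorem evT_T (n : ℤ) : evT D (T n) = D.σ n ^ 2 := by
  rw [evT, eval₂_T, Data.σ, ← Units.val_pow_eq_pow_val, ← zpow_natCast, ← zpow_natCast, ← zpow_mul,
    ← zpow_mul, mul_comm]

theorem ε_evs (r : ℤ[T;T⁻¹]) : D.ε (evs D r) = ev1 r := by
  induction r using LaurentPolynomial.induction_on' with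
  | add p q hp hq => simp [hp, hq]
  | C_mul_T n a => rw [eq_intCast C a]; simp

theorem ε_evT (r : ℤ[T;T⁻¹]) : D.ε (evT D r) = ev1 r := by
  induction r using LaurentPolynomial.induction_on' with
  | add p q hp hq => simp [hp, hq]
  | C_mul_T n a => rw [eq_intCast C a]; simp

/-- The coset of formal powers `a ^ r`. -/
def EE (a : GG D) (r : ℤ[T;T⁻¹]) : Set (GG D) :=
  {h | h.k = 0 ∧ h.u = evs D r * a.u ∧ h.v = evs D r * a.v ∧
    ∃ α β : Λ, h.w = evT D r * a.w + D.p * (α * a.u + β * a.v)}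

theorem EE_mul {a h h' : GG D} {r r' : ℤ[T;T⁻¹]} (H : h ∈ EE a r) (H' : h' ∈ EE a r') :
    h * h' ∈ EE a (r + r') := by
  obtain ⟨h1, h2, h3, α, β, h4⟩ := H
  obtain ⟨h1', h2', h3', α', β', h4'⟩ := H'
  refine ⟨by simp [h1, h1'], ?_, ?_, α + α' + evs D r * h'.v, β + β', ?_⟩
  · simp only [mul_u, h1, Data.σ_zero, h2, h2', map_add]; ring
  · simp only [mul_v, h1, Data.σ_zero, h3, h3', map_add]; ring
  · simp only [mul_w, h1, Data.σ_zero, h2, h4, h4', map_add]; ring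

theorem EE_inv {a h : GG D} {r : ℤ[T;T⁻¹]} (H : h ∈ EE a r) : h⁻¹ ∈ EE a (-r) := by
  obtain ⟨h1, h2, h3, α, β, h4⟩ := H
  refine ⟨by simp [h1], ?_, ?_, -α + evs D r * h.v, -β, ?_⟩
  · simp only [inv_u, h1, neg_zero, Data.σ_zero, h2, map_neg]; ring
  · simp only [inv_v, h1, neg_zero, Data.σ_zero, h3, map_neg]; ring
  · simp only [inv_w, h1, neg_zero, Data.σ_zero, h2, h4, map_neg]; ring

theorem EE_conj {a h : GG D} {r : ℤ[T;T⁻¹]} (H : h ∈ EE a r) (y : GG D) :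
    y * h * y⁻¹ ∈ EE a (T y.k * r) := by
  obtain ⟨h1, h2, h3, α, β, h4⟩ := H
  rw [conj_eq y h h1]
  refine ⟨rfl, ?_, ?_, D.σ y.k ^ 2 * α - D.σ y.k * evs D r * y.v,
    D.σ y.k ^ 2 * β + D.σ y.k * evs D r * y.u, ?_⟩
  · simp only [h2, map_mul, evs_T]; ring
  · simp only [h3, map_mul, evs_T]; ring
  · simp only [h2, h3, h4, map_mul, evT_T]; ring

theorem EE_self {a : GG D} (hk : a.k = 0) : a ∈ EE a 1 :=
  ⟨hk, by simp, by simp, 0, 0, by simp⟩

theorem EE_one_mem (a : GG D) : (1 : GG D) ∈ EE a 0 :=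
  ⟨rfl, by simp, by simp, 0, 0, by simp⟩

theorem EE_pow {a : GG D} (hk : a.k = 0) (n : ℕ) : a ^ n ∈ EE a (n : ℤ[T;T⁻¹]) := by
  induction n with
  | zero => simpa using EE_one_mem a
  | succ n ih => rw [pow_succ]; push_cast; exact EE_mul ih (EE_self hk)

theorem EE_T {a h : GG D} (hk : a.k = 0) {j : ℤ} (H : h ∈ EE a (T j)) :
    ∃ y : GG D, h = y * a * y⁻¹ := by
  obtain ⟨h1, h2, h3, α, β, h4⟩ := H
  refine ⟨⟨j, D.σ (-j) * β, -(D.σ (-j) * α), 0⟩, ?_⟩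
  rw [conj_eq _ a hk]
  have := D.σ_neg_mul j
  ext
  · exact h1
  · simpa using h2
  · simpa using h3
  · rw [evT_T] at h4
    simp only
    linear_combination h4 - D.p * (α * a.u + β * a.v) * this

theorem EE_std (a : GG D) (r : ℤ[T;T⁻¹]) :
    (⟨0, evs D r * a.u, evs D r * a.v, evT D r * a.w⟩ : GG D) ∈ EE a r :=
  ⟨rfl, rfl, rfl, 0, 0, by simp⟩

theorem EE_eq_one [IsDomain Λ] {a : GG D} (hk : a.k = 0) {r : ℤ[T;T⁻¹]} (hr : ev1 r ≠ 0)
    (H : (1 : GG D) ∈ EE a r) : a = 1 := by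
  obtain ⟨-, h2, h3, α, β, h4⟩ := H
  have e1 : evs D r ≠ 0 := by
    intro h
    have := ε_evs (D := D) r
    rw [h, map_zero] at this
    exact hr (by exact_mod_cast this.symm)
  have e2 : evT D r ≠ 0 := by
    intro h
    have := ε_evT (D := D) r
    rw [h, map_zero] at this
    exact hr (by exact_mod_cast this.symm)
  have hu : a.u = 0 := (mul_eq_zero.1 h2.symm).resolve_left e1
  have hv : a.v = 0 := (mul_eq_zero.1 h3.symm).resolve_left e1
  rw [hu, hv] at h4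
  have hw : a.w = 0 := by
    have : evT D r * a.w = 0 := by simpa using h4.symm
    exact (mul_eq_zero.1 this).resolve_left e2
  ext <;> simp [hk, hu, hv, hw]

theorem EE_subset {P : Set (GG D)} (hP : WA P) {a : GG D} (ha : a ∈ P) (hk : a.k = 0)
    (ρ : ℤ[T;T⁻¹]) (hρ : 1 ≤ ev1 ρ) : ∃ N0 : ℕ, ∀ N ≥ N0, 1 ≤ N → EE a (2 * sig N * ρ) ⊆ P := by
  let S : AddSubmonoid ℤ[T;T⁻¹] :=
    { carrier := {r | r = 0 ∨ EE a r ⊆ P}
      zero_mem' := Or.inl rfl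
      add_mem' := by
        rintro r r' (rfl | hr) (rfl | hr')
        · exact Or.inl (by simp)
        · exact Or.inr (by simpa using hr')
        · exact Or.inr (by simpa using hr)
        · refine Or.inr (fun h hh => ?_)
          have h1 := EE_std a r'
          have h2 := EE_mul hh (EE_inv h1)
          rw [add_neg_cancel_right] at h2
          simpa using hP.mul _ (hr h2) _ (hr' h1) }
  have hT : ∀ i, EE a (T i) ⊆ P := by
    intro i h hh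
    obtain ⟨y, rfl⟩ := EE_T hk hh
    exact hP.conj' ha y
  obtain ⟨N0, hN0⟩ := alg S (fun i => Or.inr (hT i)) (by
    intro i j
    refine Or.inr (fun h hh => ?_)
    have h1 := EE_std a (T i)
    set a' : GG D := ⟨0, evs D (T i) * a.u, evs D (T i) * a.v, evT D (T i) * a.w⟩ with ha'
    have h2 := EE_mul (EE_mul h1 h1) (EE_inv hh)
    have e : (T i + T i + -(2 * T i - T j) : ℤ[T;T⁻¹]) = T j := by ring
    rw [e] at h2
    obtain ⟨y, hy⟩ := EE_T hk h2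
    obtain ⟨z, hz⟩ := EE_T hk h1
    have h3 := hP.wa' (hT i h1) (y * z⁻¹)
    have e2 : y * z⁻¹ * a' * (y * z⁻¹)⁻¹ = a' * a' * h⁻¹ := by
      rw [hy]
      conv_lhs => rw [hz]
      group
    rw [e2] at h3
    convert h3 using 1
    group) ρ hρ
  refine ⟨N0, fun N hN hN1 => ?_⟩
  rcases hN0 N hN with h | h
  · exfalso
    have := congrArg ev1 h
    rw [map_mul, map_mul, ev1_sig, map_zero, map_ofNat] at this
    have h1 : (1 : ℤ) ≤ N := by exact_mod_cast hN1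
    nlinarith
  · exact h

/-- The normal subgroup `[g, G]` (slightly enlarged description). -/
def CC (g : GG D) : Subgroup (GG D) where
  carrier := {h | ∃ r, ev1 r = 0 ∧ h ∈ EE g r}
  one_mem' := ⟨0, by simp, EE_one_mem g⟩
  mul_mem' := by
    rintro h h' ⟨r, e, H⟩ ⟨r', e', H'⟩
    exact ⟨r + r', by simp [e, e'], EE_mul H H'⟩
  inv_mem' := by
    rintro h ⟨r, e, H⟩
    exact ⟨-r, by simp [e], EE_inv H⟩

instance (g : GG D) : (CC g).Normal := ⟨by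
  rintro h ⟨r, e, H⟩ y
  exact ⟨T y.k * r, by simp [e], EE_conj H y⟩⟩

theorem level_two [IsDomain Λ] {P : Set (GG D)} (hP : WA P)
    (hmax : ∀ R : Set (GG D), WA R → P ⊆ R → R ⊆ P) (g : GG D) (hk : g.k = 0) :
    g ∈ P ∨ g⁻¹ ∈ P := by
  by_contra hcon
  push Not at hcon
  have hc : ∀ y, Commute (QuotientGroup.mk' (CC g) g) (QuotientGroup.mk' (CC g) y) := by
    intro y
    rw [← commutatorElement_eq_one_iff_commute, ← map_commutatorElement]
    have h1 := EE_mul (EE_self hk) (EE_inv (EE_conj (EE_self hk) y))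
    refine (QuotientGroup.eq_one_iff _).2 ⟨1 + -(T y.k * 1), by simp, ?_⟩
    convert h1 using 1
    rw [commutatorElement_def]
    group
  obtain ⟨m, hm, b, hb, eb⟩ := ext_lemma hP hmax _ g hc hcon.1
  obtain ⟨n, hn, a, ha, ea⟩ := ext_lemma hP hmax (QuotientGroup.mk' (CC g)) g⁻¹
    (fun y => by rw [map_inv]; exact (hc y).inv_left) hcon.2
  rw [← map_pow, ← map_mul] at ea eb
  obtain ⟨r0, er0, Ha⟩ := (QuotientGroup.eq_one_iff _).1 ea
  obtain ⟨r0', er0', Hb⟩ := (QuotientGroup.eq_one_iff _).1 eb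
  obtain ⟨r, er, Ha⟩ : ∃ r, 1 ≤ ev1 r ∧ a ∈ EE g r := by
    refine ⟨r0 + n, by simp [er0]; omega, ?_⟩
    simpa using EE_mul Ha (EE_pow hk n)
  obtain ⟨r', er', Hb⟩ : ∃ r', 1 ≤ ev1 r' ∧ b ∈ EE g (-r') := by
    refine ⟨-(r0' + -m), by simp [er0']; omega, ?_⟩
    rw [neg_neg]
    simpa using EE_mul Hb (EE_inv (EE_pow hk m))
  obtain ⟨i, c, hi⟩ := D.hdiv (evs D r) (by
    rw [ε_evs]
    have : ev1 r ≠ 0 := by omega
    exact_mod_cast this)
  let κ : ℤ[T;T⁻¹] := (4 - T 1) ^ i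
  have hκ1 : 1 ≤ ev1 κ := by
    simp only [κ, map_pow, map_sub, ev1_T, map_ofNat]
    exact one_le_pow₀ (by norm_num)
  have hκ2 : evT D κ = evs D r * (c * (2 - D.s) ^ i) := by
    simp only [κ, map_pow, map_sub, evT_T, map_ofNat, D.σ_one]
    rw [← mul_assoc, ← hi, ← mul_pow]
    congr 1
    ring
  obtain ⟨N1, hN1⟩ := EE_subset hP ha Ha.1 (r' * κ) (by rw [map_mul]; nlinarith)
  obtain ⟨N2, hN2⟩ := EE_subset hP hb Hb.1 (r * κ) (by rw [map_mul]; nlinarith)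
  have h1 := hN1 (N1 + N2 + 1) (by omega) (by omega)
  have h2 := hN2 (N1 + N2 + 1) (by omega) (by omega)
  set τ := 2 * sig (N1 + N2 + 1) with hτ
  have h3 := EE_std b (τ * (r * κ))
  set h' : GG D := ⟨0, evs D (τ * (r * κ)) * b.u, evs D (τ * (r * κ)) * b.v,
    evT D (τ * (r * κ)) * b.w⟩ with hh'
  have h4 : h'⁻¹ ∈ EE a (τ * (r' * κ)) := by
    obtain ⟨-, a2, a3, α, β, a4⟩ := Ha
    obtain ⟨-, b2, b3, α', β', b4⟩ := Hb
    refine ⟨by simp [hh'], ?_, ?_,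
      -(evT D τ * (c * (2 - D.s) ^ i) * (evT D r' * α + evT D r * α')) -
        evs D (τ * (r' * κ)) * (evs D (τ * (r * κ)) * b.v),
      -(evT D τ * (c * (2 - D.s) ^ i) * (evT D r' * β + evT D r * β')), ?_⟩
    · simp only [hh', inv_u, neg_zero, Data.σ_zero, a2, b2, map_mul, map_neg]; ring
    · simp only [hh', inv_v, neg_zero, Data.σ_zero, a3, b3, map_mul, map_neg]; ring
    · simp only [hh', inv_w, neg_zero, Data.σ_zero, a2, a3, a4, b2, b4, map_mul, map_neg, hκ2]; ring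
  have h5 : h' = 1 := hP.anti _ (h2 h3) (h1 h4)
  rw [h5] at h3
  have hb1 : b = 1 := EE_eq_one Hb.1 (by
    rw [hτ, map_mul, map_mul, map_mul, ev1_sig, map_ofNat]
    positivity) h3
  rw [hb1] at Hb
  have hg1 : g = 1 := EE_eq_one hk (by rw [map_neg]; omega) Hb
  exact hcon.1 (hg1 ▸ hP.one)

/-- Every weakly abelian partial order of `GG D` extends to a weakly abelian total order. -/
theorem wstar [IsDomain Λ] {P : Set (GG D)} (hP : WA P) :
    ∃ Q : Set (GG D), P ⊆ Q ∧ WA Q ∧ ∀ a, a ∈ Q ∨ a⁻¹ ∈ Q := by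
  obtain ⟨Q, hPQ, hQ, hmax⟩ := exists_maximal hP
  refine ⟨Q, hPQ, hQ, fun a => ?_⟩
  by_cases hk : a.k = 0
  · exact level_two hQ hmax a hk
  · exact level_one hQ hmax a hk

/-! ### A partial order without total extension -/

/-- The bad cone. -/
def P0 (D : Data Λ) : Set (GG D) :=
  {h | h = 1 ∨ (h.k = 0 ∧ h.v = 0 ∧ D.η h.u = 0 ∧ (0 < D.η h.w ∨ (D.η h.w = 0 ∧ 0 < D.ε h.u)))}

theorem P0_mul : ∀ a ∈ P0 D, ∀ b ∈ P0 D, a * b ∈ P0 D := by
  rintro a (rfl | ⟨a1, a2, a3, a4⟩) b hb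
  · simpa using hb
  rcases hb with rfl | ⟨b1, b2, b3, b4⟩
  · rw [mul_one]; exact Or.inr ⟨a1, a2, a3, a4⟩
  refine Or.inr ⟨by simp [a1, b1], by simp [a2, b2], by simp [a1, a3, b3], ?_⟩
  have e1 : D.η (a * b).w = D.η a.w + D.η b.w := by simp [a1, b2]
  have e2 : D.ε (a * b).u = D.ε a.u + D.ε b.u := by simp
  rw [e1, e2]
  rcases a4 with a4 | ⟨a4, a5⟩ <;> rcases b4 with b4 | ⟨b4, b5⟩
  · left; linarith
  · left; linarith
  · left; linarith
  · right; constructor <;> linarith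

theorem P0_anti : ∀ a ∈ P0 D, a⁻¹ ∈ P0 D → a = 1 := by
  rintro a (rfl | ⟨a1, a2, a3, a4⟩) hb
  · rfl
  rcases hb with hb | ⟨-, -, -, b4⟩
  · exact inv_eq_one.1 hb
  exfalso
  have e1 : D.η (a⁻¹).w = -D.η a.w := by simp [a1, a2]
  have e2 : D.ε (a⁻¹).u = -D.ε a.u := by simp
  rw [e1, e2] at b4
  rcases a4 with a4 | ⟨a4, a5⟩ <;> rcases b4 with b4 | ⟨b4, b5⟩ <;> linarith

theorem P0_conj : ∀ a ∈ P0 D, ∀ x : GG D, x⁻¹ * a * x ∈ P0 D := by
  rintro a (rfl | ⟨a1, a2, a3, a4⟩) x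
  · exact Or.inl (by simp)
  have h := conj_eq x⁻¹ a a1
  rw [inv_inv] at h
  rw [h]
  refine Or.inr ⟨rfl, by simp [a2], by simp [a3], ?_⟩
  have e1 : D.η (D.σ x⁻¹.k ^ 2 * a.w + D.p * D.σ x⁻¹.k * (x⁻¹.u * a.v - a.u * x⁻¹.v)) =
      ((-2) ^ x⁻¹.k) ^ 2 * D.η a.w := by
    simp only [map_add, map_mul, map_pow, map_sub, a2, a3, D.η_σ, map_zero]
    ring
  have e2 : D.ε (D.σ x⁻¹.k * a.u) = D.ε a.u := by simp
  have e3 : (0 : ℚ) < ((-2) ^ x⁻¹.k) ^ 2 := by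
    have : ((-2 : ℚ) ^ x⁻¹.k) ≠ 0 := zpow_ne_zero _ (by norm_num)
    positivity
  simp only [e1, e2]
  rcases a4 with a4 | ⟨a4, a5⟩
  · left; positivity
  · right; exact ⟨by rw [a4, mul_zero], a5⟩

theorem not_ostar (Q : Set (GG D)) (hPQ : P0 D ⊆ Q) (hmul : ∀ a ∈ Q, ∀ b ∈ Q, a * b ∈ Q)
    (hanti : ∀ a ∈ Q, a⁻¹ ∈ Q → a = 1) (hconj : ∀ a ∈ Q, ∀ x : GG D, x⁻¹ * a * x ∈ Q)
    (htot : ∀ a : GG D, a ∈ Q ∨ a⁻¹ ∈ Q) : False := by
  have hconj' : ∀ a ∈ Q, ∀ x : GG D, x * a * x⁻¹ ∈ Q := fun a ha x => by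
    simpa using hconj a ha x⁻¹
  let g : GG D := ⟨0, 1, 0, 0⟩
  let x : GG D := ⟨1, 0, 0, 0⟩
  let y : GG D := ⟨0, 0, -1, 0⟩
  let a : GG D := ⟨0, D.s + 2, 0, 0⟩
  let b : GG D := ⟨0, D.s + 2, 0, D.p⟩
  have hne : ∀ w : Λ, (⟨0, D.s + 2, 0, w⟩ : GG D) ≠ 1 := by
    intro w h
    have h1 := congrArg (fun z : GG D => D.ε z.u) h
    simp only [map_add, D.hε, map_ofNat, one_u, map_zero] at h1
    norm_num at h1
  have ea : a = g * g * (x * g * x⁻¹) := by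
    rw [conj_eq x g rfl]
    ext <;> simp [a, g, x, D.σ_one]
    ring
  have eb : b = g * (y * g * y⁻¹) * (x * g * x⁻¹) := by
    rw [conj_eq x g rfl, conj_eq y g rfl]
    ext <;> simp [b, g, x, y, D.σ_one]
    ring
  have ha : a ∈ Q := hPQ (Or.inr ⟨rfl, rfl, by simp [a, D.hη, map_ofNat],
    Or.inr ⟨by simp [a], by simp [a, D.hε, map_ofNat]; norm_num⟩⟩)
  have hb : b⁻¹ ∈ Q := hPQ (Or.inr ⟨by simp [b], by simp [b], by simp [b, D.hη, map_ofNat],
    Or.inl (by simp [b, D.η_p])⟩)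
  rcases htot g with hg | hg
  · refine hne _ (hanti b ?_ hb)
    rw [eb]
    exact hmul _ (hmul _ hg _ (hconj' _ hg y)) _ (hconj' _ hg x)
  · refine hne _ (hanti a ha ?_)
    have := hmul _ (hconj' _ hg x) _ (hmul _ hg _ hg)
    convert this using 1
    rw [ea]
    group

end Pool.Agent.H162Z.Wa
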