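import Pool.Agent.H162Z.WaGroup

set_option autoImplicit false

namespace Pool.Agent.H162Z.Wa

open Polynomial

/-- Polynomials vanishing neither at `1` nor at `-2`. -/
def MM : Submonoid ℚ[X] where
  carrier := {f | f.eval 1 ≠ 0 ∧ f.eval (-2) ≠ 0}
  one_mem' := by simp
  mul_mem' := by
    rintro f g ⟨h1, h2⟩ ⟨h3, h4⟩
    exact ⟨by rw [eval_mul]; exact mul_ne_zero h1 h3, by rw [eval_mul]; exact mul_ne_zero h2 h4⟩

/-- The semi-local ring. -/
abbrev LL : Type := Localization MM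

instance : IsDomain LL := IsLocalization.isDomain_localization (by
  intro f hf
  refine mem_nonZeroDivisors_of_ne_zero ?_
  rintro rfl
  exact hf.1 (by simp))

theorem isUnit_MM {f : ℚ[X]} (h1 : f.eval 1 ≠ 0) (h2 : f.eval (-2) ≠ 0) :
    IsUnit (algebraMap ℚ[X] LL f) := IsLocalization.map_units LL (⟨f, h1, h2⟩ : MM)

noncomputable def εL : LL →+* ℚ :=
  IsLocalization.lift (M := MM) (g := evalRingHom 1) (fun y => isUnit_iff_ne_zero.2 y.2.1)

noncomputable def ηL : LL →+* ℚ :=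
  IsLocalization.lift (M := MM) (g := evalRingHom (-2)) (fun y => isUnit_iff_ne_zero.2 y.2.2)

theorem εL_alg (f : ℚ[X]) : εL (algebraMap ℚ[X] LL f) = f.eval 1 := by
  rw [εL, IsLocalization.lift_eq]; rfl

theorem ηL_alg (f : ℚ[X]) : ηL (algebraMap ℚ[X] LL f) = f.eval (-2) := by
  rw [ηL, IsLocalization.lift_eq]; rfl

noncomputable def DD : Data LL where
  s := (isUnit_MM (f := X) (by simp) (by simp)).unit
  ε := εL
  η := ηL
  hε := by rw [IsUnit.unit_spec, εL_alg, eval_X]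
  hη := by rw [IsUnit.unit_spec, ηL_alg, eval_X]
  hunit := by
    intro r h1 h2
    obtain ⟨⟨f, m⟩, e⟩ := IsLocalization.surj MM r
    simp only at e
    have e1 := congrArg εL e
    have e2 := congrArg ηL e
    rw [map_mul, εL_alg, εL_alg] at e1
    rw [map_mul, ηL_alg, ηL_alg] at e2
    have hu := isUnit_MM (f := f) (e1 ▸ mul_ne_zero h1 m.2.1) (e2 ▸ mul_ne_zero h2 m.2.2)
    rw [← e] at hu
    exact isUnit_of_mul_isUnit_left hu
  hker := by
    intro r h1
    obtain ⟨⟨f, m⟩, e⟩ := IsLocalization.surj MM r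
    simp only at e
    have e1 := congrArg εL e
    rw [map_mul, εL_alg, εL_alg, h1, zero_mul] at e1
    have h2 : (X - C 1 : ℚ[X]) ∣ f := dvd_iff_isRoot.2 e1.symm
    have h3 := map_dvd (algebraMap ℚ[X] LL) h2
    rw [← e, (isUnit_MM m.2.1 m.2.2).dvd_mul_right] at h3
    simpa using h3
  hdiv := by
    intro r h1
    obtain ⟨⟨f, m⟩, e⟩ := IsLocalization.surj MM r
    simp only at e
    have e1 := congrArg εL e
    rw [map_mul, εL_alg, εL_alg] at e1
    have hf1 : f.eval 1 ≠ 0 := e1 ▸ mul_ne_zero h1 m.2.1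
    have hf0 : f ≠ 0 := by rintro rfl; exact hf1 (by simp)
    obtain ⟨q, hq, hnd⟩ := exists_eq_pow_rootMultiplicity_mul_and_not_dvd f hf0 (-2)
    have hq1 : q.eval 1 ≠ 0 := by
      intro h
      apply hf1
      rw [hq, eval_mul, h, mul_zero]
    have hq2 : q.eval (-2) ≠ 0 := fun h => hnd (dvd_iff_isRoot.2 h)
    refine ⟨rootMultiplicity (-2) f, ?_⟩
    have h3 : r ∣ algebraMap ℚ[X] LL f := ⟨_, e.symm⟩
    rw [hq, map_mul, (isUnit_MM hq1 hq2).dvd_mul_right, map_pow] at h3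
    convert h3 using 2
    rw [IsUnit.unit_spec, map_neg, sub_neg_eq_add, map_add, map_ofNat, map_ofNat]

end Pool.Agent.H162Z.Wa
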